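import Mathlib
import Pool.Agent.Run7.h493.Init

set_option autoImplicit false
set_option linter.unusedSectionVars false
set_option linter.unusedVariables false

/-! Counting in the region reached from the cycles missed by a best independent transversal. -/

namespace H809R4.Count

open Finset Run7.h493.Reg Run7.h493.Init

variable {V B : Type*} [Fintype V] [DecidableEq V] [Fintype B] [DecidableEq B]
variable {H : SimpleGraph V} {bl : V → B} {t : B → V}

/-- the vertices of a component -/
noncomputable def vs (H : SimpleGraph V) (C : H.ConnectedComponent) : Finset V := by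
  classical exact Finset.univ.filter (fun v => H.connectedComponentMk v = C)

lemma mem_vs {C : H.ConnectedComponent} {v : V} : v ∈ vs H C ↔ H.connectedComponentMk v = C := by
  classical
  unfold vs
  simp

lemma cyc_three {C : H.ConnectedComponent} (hC : Cyc H C) : 3 ≤ (vs H C).card := by
  classical
  obtain ⟨v, hv⟩ : ∃ v, H.connectedComponentMk v = C := Quot.exists_rep C
  obtain ⟨a, b, hab, ha, hb⟩ := hC v hv
  have h1 : ({v, a, b} : Finset V) ⊆ vs H C := by
    intro x hx
    simp only [Finset.mem_insert, Finset.mem_singleton] at hx
    rw [mem_vs]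
    rcases hx with rfl | rfl | rfl
    · exact hv
    · rw [← cc_adj ha]; exact hv
    · rw [← cc_adj hb]; exact hv
  have h2 := Finset.card_le_card h1
  rw [Finset.card_eq_three.2 ⟨v, a, b, ha.ne, hb.ne, hab, rfl⟩] at h2
  exact h2

/-- there are at least four triangles for every missed cycle -/
theorem four_le (ht : MaxIT H bl t)
    (hbl : ∀ b, (Finset.univ.filter (fun v => bl v = b)).card = 4) (S Tr : Finset H.ConnectedComponent)
    (hS : ∀ C ∈ S, Un H t C) (hTr : ∀ C, Cyc H C → (vs H C).card = 3 → C ∈ Tr) :
    4 * S.card ≤ Tr.card := by
  classical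
  set R : Finset B := Finset.univ.filter (fun b => Region H bl t b) with hR
  have hg : ∀ b, b ∈ R → Good H t b := fun b hb =>
    region_good ht (by simpa [hR] using hb)
  set D : Finset H.ConnectedComponent := R.image (fun b => H.connectedComponentMk (t b)) with hD
  have hDc : D.card = R.card := by
    rw [hD]
    apply Finset.card_image_of_injOn
    intro b hb b' hb' h
    exact (hg b' hb').2 b h
  have hdisj : Disjoint S D := by
    rw [Finset.disjoint_left]
    intro C hC hCD
    rw [hD, Finset.mem_image] at hCD
    obtain ⟨b, -, hb⟩ := hCD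
    exact (hS C hC).2 ⟨b, hb⟩
  set A : Finset H.ConnectedComponent := S ∪ D with hA
  have hAc : A.card = S.card + R.card := by
    rw [hA, Finset.card_union_of_disjoint hdisj, hDc]
  have hcyc : ∀ C ∈ A, Cyc H C := by
    intro C hC
    rw [hA, Finset.mem_union] at hC
    rcases hC with hC | hC
    · exact (hS C hC).1
    · rw [hD, Finset.mem_image] at hC
      obtain ⟨b, hb, rfl⟩ := hC
      exact (hg b hb).1
  -- the vertices of these components lie in the blocks of the region
  set W : Finset V := Finset.univ.filter (fun v => H.connectedComponentMk v ∈ A) with hW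
  have hWR : W ⊆ Finset.univ.filter (fun v => bl v ∈ R) := by
    intro v hv
    rw [hW, Finset.mem_filter] at hv
    have hv := hv.2
    rw [Finset.mem_filter]
    refine ⟨Finset.mem_univ _, ?_⟩
    rw [hR, Finset.mem_filter]
    refine ⟨Finset.mem_univ _, ?_⟩
    rw [hA, Finset.mem_union] at hv
    rcases hv with hv | hv
    · exact region_start v (hS _ hv).1 (hS _ hv).2
    · rw [hD, Finset.mem_image] at hv
      obtain ⟨b, hb, h⟩ := hv
      rw [hR, Finset.mem_filter] at hb
      exact region_step hb.2 v h.symm
  have h1 : (Finset.univ.filter (fun v => bl v ∈ R)).card = 4 * R.card := by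
    have := Finset.card_eq_sum_card_fiberwise (s := Finset.univ.filter (fun v => bl v ∈ R))
      (t := R) (f := bl) (fun v hv => by
        have := (Finset.mem_filter.1 (Finset.mem_coe.1 hv)).2
        exact Finset.mem_coe.2 this)
    rw [this, Finset.sum_congr rfl (g := fun _ => 4), Finset.sum_const, smul_eq_mul, mul_comm]
    intro b hb
    rw [← hbl b]
    congr 1
    ext v
    simp only [Finset.mem_filter, Finset.mem_univ, true_and]
    constructor
    · exact fun h => h.2
    · intro h
      exact ⟨by rw [h]; exact hb, h⟩
  have h2 : W.card = ∑ C ∈ A, (vs H C).card := by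
    have := Finset.card_eq_sum_card_fiberwise (s := W)
      (t := A) (f := fun v => H.connectedComponentMk v) (fun v hv => by
        have := (Finset.mem_filter.1 (Finset.mem_coe.1 hv)).2
        exact Finset.mem_coe.2 this)
    rw [this]
    apply Finset.sum_congr rfl
    intro C hC
    congr 1
    ext v
    rw [mem_vs]
    simp only [Finset.mem_filter]
    constructor
    · exact fun h => h.2
    · intro h
      exact ⟨by rw [hW, Finset.mem_filter]; exact ⟨Finset.mem_univ _, by rw [h]; exact hC⟩, h⟩
  have h3 : ∑ C ∈ A, 4 ≤ ∑ C ∈ A, ((vs H C).card + if C ∈ Tr then 1 else 0) := by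
    apply Finset.sum_le_sum
    intro C hC
    have h4 := cyc_three (hcyc C hC)
    by_cases h5 : (vs H C).card = 3
    · rw [if_pos (hTr C (hcyc C hC) h5)]
      omega
    · omega
  rw [Finset.sum_add_distrib, Finset.sum_const, smul_eq_mul, ← h2, Finset.sum_ite_mem,
    Finset.sum_const, smul_eq_mul, mul_one, hAc] at h3
  have h5 := Finset.card_le_card hWR
  have h6 : (A ∩ Tr).card ≤ Tr.card := Finset.card_le_card Finset.inter_subset_right
  omega

end H809R4.Count
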