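import Mathlib
import Pool.Agent.Run7.h493.Stage

set_option autoImplicit false
set_option linter.unusedSectionVars false
set_option linter.unusedVariables false

/-! Trees of the changes of one colour, uniqueness of the root, and the choice of the opened end
of every missed cycle. -/

namespace H809R4.Tree

open Finset Run7.h493.Reg Run7.h493.Init Run7.h493.Stage

variable {V B : Type*} [Fintype V] [DecidableEq V] [Fintype B] [DecidableEq B]
variable {H : SimpleGraph V} {bl : V → B} {t : B → V}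
variable {a c : H.ConnectedComponent → V} {f : V → Fin 4} {k : Fin 4}

/-- colours may be permuted -/
theorem st_perm {kk : ℕ} (σ : Equiv.Perm (Fin 4)) (h3 : σ 3 = 3)
    (hσ : ∀ x : Fin 4, x ≠ 3 → kk ≤ (x : ℕ) → kk ≤ ((σ x : Fin 4) : ℕ))
    (hac : ∀ C, Cyc H C → H.connectedComponentMk (a C) = C ∧ H.Adj (a C) (c C))
    (hst : St H bl t a c f kk) : St H bl t a c (fun v => σ (f v)) kk := by
  have h3' : ∀ x, σ x = 3 ↔ x = 3 := by
    intro x
    constructor
    · intro h
      exact σ.injective (h.trans h3.symm)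
    · rintro rfl
      exact h3
  refine ⟨?_, ?_, ?_⟩
  · intro u v huv h
    exact hst.inj u v huv (σ.injective h)
  · intro u v huv h
    obtain ⟨C, hC, hq, hle, h4⟩ := hst.conf u v huv (σ.injective h)
    refine ⟨C, hC, fun s hs h5 => hq s hs ((h3' _).1 h5), ?_, h4⟩
    apply hσ _ _ hle
    apply hq
    rcases h4 with ⟨h4, -⟩ | ⟨h4, -⟩
    · rw [h4]; exact (hac C hC.1).1
    · rw [h4, ← cc_adj (hac C hC.1).2]; exact (hac C hC.1).1
  · intro s hs
    exact hst.reg s ((h3' _).1 hs)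

/-- the roles of the two ends of the opened edges may be exchanged -/
theorem st_orient {kk : ℕ} {a' c' : H.ConnectedComponent → V}
    (h : ∀ C, (a' C = a C ∧ c' C = c C) ∨ (a' C = c C ∧ c' C = a C))
    (hst : St H bl t a c f kk) : St H bl t a' c' f kk := by
  refine ⟨hst.inj, ?_, hst.reg⟩
  intro u v huv h'
  obtain ⟨C, hC, hq, hle, h4⟩ := hst.conf u v huv h'
  refine ⟨C, hC, hq, hle, ?_⟩
  rcases h C with ⟨e1, e2⟩ | ⟨e1, e2⟩
  · rw [e1, e2]; exact h4
  · rw [e1, e2]
    rcases h4 with ⟨h4, h5⟩ | ⟨h4, h5⟩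
    · exact Or.inr ⟨h4, h5⟩
    · exact Or.inl ⟨h4, h5⟩

theorem hac_orient {a' c' : H.ConnectedComponent → V}
    (h : ∀ C, (a' C = a C ∧ c' C = c C) ∨ (a' C = c C ∧ c' C = a C))
    (hac : ∀ C, Cyc H C → H.connectedComponentMk (a C) = C ∧ H.Adj (a C) (c C)) :
    ∀ C, Cyc H C → H.connectedComponentMk (a' C) = C ∧ H.Adj (a' C) (c' C) := by
  intro C hC
  obtain ⟨h1, h2⟩ := hac C hC
  rcases h C with ⟨e1, e2⟩ | ⟨e1, e2⟩
  · rw [e1, e2]; exact ⟨h1, h2⟩
  · rw [e1, e2]
    exact ⟨by rw [← cc_adj h2]; exact h1, h2.symm⟩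

/-- blocks reached from the vertex `r` -/
inductive Tr (H : SimpleGraph V) (bl : V → B) (f : V → Fin 4) (k : Fin 4) (r : V) : B → Prop
  | start : Tr H bl f k r (bl r)
  | step (s u : V) : Tr H bl f k r (bl s) → f s = 3 → H.Adj s u → f u = k →
      Tr H bl f k r (bl u)

theorem fl_tr {b : B} (h : Fl H bl t a c f k b) :
    ∃ C, Un H t C ∧ f (a C) = k ∧ f (c C) = k ∧ Tr H bl f k (a C) b := by
  induction h with
  | start C h1 h2 h3 => exact ⟨C, h1, h2, h3, Tr.start⟩
  | step s u _ h2 h3 h4 ih =>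
    obtain ⟨C, e1, e2, e3, e4⟩ := ih
    exact ⟨C, e1, e2, e3, Tr.step s u e4 h2 h3 h4⟩

theorem tr_inv {r : V} {b : B} (h : Tr H bl f k r b) :
    b = bl r ∨ ∃ s u, Tr H bl f k r (bl s) ∧ f s = 3 ∧ H.Adj s u ∧ f u = k ∧ b = bl u := by
  cases h with
  | start => exact Or.inl rfl
  | step s u h1 h2 h3 h4 => exact Or.inr ⟨s, u, h1, h2, h3, h4, rfl⟩

theorem tr_region {kk : ℕ} (hst : St H bl t a c f kk) {r : V} (hr : Region H bl t (bl r)) {b : B}
    (h : Tr H bl f k r b) : Region H bl t b := by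
  induction h with
  | start => exact hr
  | step s u _ hs hsu _ ih =>
    rcases hst.reg s hs ih with h | ⟨b', hb', h⟩
    · apply region_start
      · rw [← cc_adj hsu]; exact h.1
      · rw [← cc_adj hsu]; exact h.2
    · apply region_step hb'
      rw [← cc_adj hsu]; exact h

theorem tr_unique {kk : ℕ} (hst : St H bl t a c f kk)
    (hF : ∀ u s s', f u = k → H.Adj u s → H.Adj u s' → f s = 3 → f s' = 3 →
      Region H bl t (bl s) → s = s')
    {r r' : V} (hr : f r = k) (hr' : f r' = k) (nr : ∀ s, H.Adj r s → f s ≠ 3)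
    (nr' : ∀ s, H.Adj r' s → f s ≠ 3) (hreg : Region H bl t (bl r)) {b : B}
    (h : Tr H bl f k r b) : Tr H bl f k r' b → r = r' := by
  induction h with
  | start =>
    intro h'
    rcases tr_inv h' with h1 | ⟨s, u, h1, h2, h3, h4, h5⟩
    · exact hst.inj _ _ h1 (hr.trans hr'.symm)
    · exfalso
      have : r = u := hst.inj _ _ h5 (hr.trans h4.symm)
      subst this
      exact nr s h3.symm h2
  | step s u hb h2 h3 h4 ih =>
    intro h'
    rcases tr_inv h' with h5 | ⟨s', u', h5, h6, h7, h8, h9⟩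
    · exfalso
      have : u = r' := hst.inj _ _ h5 (h4.trans hr'.symm)
      subst this
      exact nr' s h3.symm h2
    · have : u = u' := hst.inj _ _ h9 (h4.trans h8.symm)
      subst this
      have hss := hF u s s' h4 h3.symm h7.symm h2 h6 (tr_region hst hreg hb)
      subst hss
      exact ih h5

/-- both neighbours of the vertex `v` of colour 3 have colour `k` -/
def Br (H : SimpleGraph V) (f : V → Fin 4) (k : Fin 4) (v : V) : Prop :=
  f v = 3 ∧ ∃ u w, u ≠ w ∧ H.Adj v u ∧ H.Adj v w ∧ f u = k ∧ f w = k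

/-- a component of the region -/
def RC (H : SimpleGraph V) (bl : V → B) (t : B → V) (D : H.ConnectedComponent) : Prop :=
  Un H t D ∨ ∃ b, Region H bl t b ∧ D = H.connectedComponentMk (t b)

/-- every component of the region in `Sh` has at most one vertex of colour 3 -/
def Single (H : SimpleGraph V) (bl : V → B) (t : B → V) (Sh : Finset H.ConnectedComponent)
    (f : V → Fin 4) : Prop :=
  ∀ D ∈ Sh, RC H bl t D → ∀ s s', H.connectedComponentMk s = D →
    H.connectedComponentMk s' = D → f s = 3 → f s' = 3 → s = s'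

variable {Sh : Finset H.ConnectedComponent}

/-- one of two colours is good -/
theorem good_colour {kk : ℕ} (hst : St H bl t a c f kk)
    (hdeg : ∀ u a b c, H.Adj u a → H.Adj u b → H.Adj u c → a = b ∨ a = c ∨ b = c)
    (hac : ∀ C, Cyc H C → H.connectedComponentMk (a C) = C ∧ H.Adj (a C) (c C))
    (hS : Single H bl t Sh f) (hSh : Sh.card ≤ 3) {k k' : Fin 4} (hkk' : k ≠ k')
    (hF : ∀ κ, κ = k ∨ κ = k' → ∀ u s s', f u = κ → H.Adj u s → H.Adj u s' → f s = 3 →
      f s' = 3 → Region H bl t (bl s) → s = s') :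
    ∃ κ, (κ = k ∨ κ = k') ∧ ∀ C, Un H t C → f (a C) = κ → f (c C) = κ →
      (∀ D ∈ Sh, ∀ v, H.connectedComponentMk v = D → Br H f κ v → ¬ Tr H bl f κ (a C) (bl v)) ∨
      (∀ D ∈ Sh, ∀ v, H.connectedComponentMk v = D → Br H f κ v → ¬ Tr H bl f κ (c C) (bl v)) := by
  classical
  by_contra hcon
  push Not at hcon
  obtain ⟨C, hC, h1, h2, ⟨D1, hD1, v1, e1, f1, g1⟩, ⟨D2, hD2, v2, e2, f2, g2⟩⟩ :=
    hcon k (Or.inl rfl)
  obtain ⟨C', hC', h1', h2', ⟨D3, hD3, v3, e3, f3, g3⟩, ⟨D4, hD4, v4, e4, f4, g4⟩⟩ :=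
    hcon k' (Or.inr rfl)
  have hquiet : ∀ C, Un H t C → ∀ κ, f (a C) = κ → f (c C) = κ →
      (∀ s, H.Adj (a C) s → f s ≠ 3) ∧ (∀ s, H.Adj (c C) s → f s ≠ 3) ∧
      Region H bl t (bl (a C)) ∧ Region H bl t (bl (c C)) ∧ a C ≠ c C := by
    intro C hC κ e1 e2
    obtain ⟨g1, g2⟩ := hac C hC.1
    obtain ⟨C', hC', hq, -, h4⟩ := hst.conf _ _ g2 (e1.trans e2.symm)
    have : C' = C := by
      have e3 := (hac C' hC'.1).1
      have e4 := cc_adj (hac C' hC'.1).2
      rcases h4 with ⟨h4, -⟩ | ⟨h4, -⟩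
      · rw [← e3, ← h4, g1]
      · rw [← e3, e4, ← h4, g1]
    subst this
    have g3 : H.connectedComponentMk (c C') = C' := by rw [← cc_adj g2]; exact g1
    refine ⟨fun s hs => hq s (by rw [← cc_adj hs]; exact g1),
      fun s hs => hq s (by rw [← cc_adj hs]; exact g3), ?_, ?_, g2.ne⟩
    · apply region_start
      · rw [g1]; exact hC.1
      · rw [g1]; exact hC.2
    · apply region_start
      · rw [g3]; exact hC.1
      · rw [g3]; exact hC.2
  obtain ⟨q1, q2, q3, q4, q5⟩ := hquiet C hC k h1 h2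
  obtain ⟨q1', q2', q3', q4', q5'⟩ := hquiet C' hC' k' h1' h2'
  have hRC : ∀ r v : V, ∀ κ, Region H bl t (bl r) → f v = 3 → Tr H bl f κ r (bl v) →
      RC H bl t (H.connectedComponentMk v) := by
    intro r v κ h1 h2 h3
    rcases hst.reg v h2 (tr_region hst h1 h3) with h | ⟨b, hb, h⟩
    · exact Or.inl h
    · exact Or.inr ⟨b, hb, h⟩
  -- equal components give equal vertices
  have heq : ∀ D, D ∈ Sh → ∀ v w : V, H.connectedComponentMk v = D →
      H.connectedComponentMk w = D → f v = 3 → f w = 3 →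
      RC H bl t (H.connectedComponentMk v) → v = w := by
    intro D hD v w hv hw h1 h2 h3
    exact hS D hD (by rw [← hv]; exact h3) v w hv hw h1 h2
  have n12 : D1 ≠ D2 := by
    rintro rfl
    have := heq D1 hD1 v1 v2 e1 e2 f1.1 f2.1 (hRC _ _ _ q3 f1.1 g1)
    subst this
    exact q5 (tr_unique hst (hF k (Or.inl rfl)) h1 h2 q1 q2 q3 g1 g2)
  have n34 : D3 ≠ D4 := by
    rintro rfl
    have := heq D3 hD3 v3 v4 e3 e4 f3.1 f4.1 (hRC _ _ _ q3' f3.1 g3)
    subst this
    exact q5' (tr_unique hst (hF k' (Or.inr rfl)) h1' h2' q1' q2' q3' g3 g4)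
  have hbr : ∀ v, Br H f k v → Br H f k' v → False := by
    rintro v ⟨-, u, w, huw, h1, h2, h3, h4⟩ ⟨-, u', w', -, h1', -, h3', -⟩
    rcases hdeg v u w u' h1 h2 h1' with h | h | h
    · exact huw h
    · rw [← h, h3] at h3'; exact hkk' h3'
    · rw [← h, h4] at h3'; exact hkk' h3'
  have hcross : ∀ D E, D ∈ Sh → ∀ v w : V, H.connectedComponentMk v = D →
      H.connectedComponentMk w = E → Br H f k v → Br H f k' w →
      RC H bl t (H.connectedComponentMk v) → D ≠ E := by
    rintro D E hD v w hv hw h1 h2 h3 rfl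
    have := heq D hD v w hv hw h1.1 h2.1 h3
    subst this
    exact hbr v h1 h2
  have r1 := hRC _ _ _ q3 f1.1 g1
  have r2 := hRC _ _ _ q4 f2.1 g2
  have n13 := hcross D1 D3 hD1 v1 v3 e1 e3 f1 f3 r1
  have n14 := hcross D1 D4 hD1 v1 v4 e1 e4 f1 f4 r1
  have n23 := hcross D2 D3 hD2 v2 v3 e2 e3 f2 f3 r2
  have n24 := hcross D2 D4 hD2 v2 v4 e2 e4 f2 f4 r2
  have hsub : ({D1, D2, D3, D4} : Finset H.ConnectedComponent) ⊆ Sh := by
    intro x hx
    simp only [Finset.mem_insert, Finset.mem_singleton] at hx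
    rcases hx with rfl | rfl | rfl | rfl <;> assumption
  have := Finset.card_le_card hsub
  rw [Finset.card_insert_of_notMem (by simp [n12, n13, n14]),
    Finset.card_eq_three.2 ⟨D2, D3, D4, n23, n24, n34, rfl⟩] at this
  omega

/-- choice of the ends for a good colour -/
theorem orient {kk : ℕ} (hst : St H bl t a c f kk)
    (hac : ∀ C, Cyc H C → H.connectedComponentMk (a C) = C ∧ H.Adj (a C) (c C)) {κ : Fin 4}
    (hg : ∀ C, Un H t C → f (a C) = κ → f (c C) = κ →
      (∀ D ∈ Sh, ∀ v, H.connectedComponentMk v = D → Br H f κ v → ¬ Tr H bl f κ (a C) (bl v)) ∨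
      (∀ D ∈ Sh, ∀ v, H.connectedComponentMk v = D → Br H f κ v → ¬ Tr H bl f κ (c C) (bl v))) :
    ∃ a' c' : H.ConnectedComponent → V,
      (∀ C, (a' C = a C ∧ c' C = c C) ∨ (a' C = c C ∧ c' C = a C)) ∧
      (∀ v, H.connectedComponentMk v ∈ Sh → Br H f κ v → ¬ Fl H bl t a' c' f κ (bl v)) := by
  classical
  let P : H.ConnectedComponent → Prop := fun C =>
    ∀ D ∈ Sh, ∀ v, H.connectedComponentMk v = D → Br H f κ v → ¬ Tr H bl f κ (a C) (bl v)
  refine ⟨fun C => if P C then a C else c C, fun C => if P C then c C else a C, ?_, ?_⟩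
  · intro C
    by_cases h : P C
    · left; simp [h]
    · right; simp [h]
  · intro v hv hbr hfl
    obtain ⟨C, hC, h1, h2, h3⟩ := fl_tr hfl
    by_cases h : P C
    · simp only [if_pos h] at h1 h2 h3
      exact h _ hv v rfl hbr h3
    · simp only [if_neg h] at h1 h2 h3
      rcases hg C hC h2 h1 with h4 | h4
      · exact h h4
      · exact h4 _ hv v rfl hbr h3

/-- after a change without branching in `Sh`, the components in `Sh` are still met once -/
theorem single_next {kk : ℕ} (hk : k ≠ 3) (hst : St H bl t a c f kk)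
    (hac : ∀ C, Cyc H C → H.connectedComponentMk (a C) = C ∧ H.Adj (a C) (c C))
    (hS : Single H bl t Sh f)
    (hnb : ∀ v, H.connectedComponentMk v ∈ Sh → Br H f k v → ¬ Fl H bl t a c f k (bl v)) :
    Single H bl t Sh (nf H bl t a c f k) := by
  intro D hD hRC s s' hs hs' h h'
  -- conflict components are quiet
  have hconf : ∀ C, Un H t C → f (a C) = k → f (c C) = k →
      ∀ s, H.connectedComponentMk s = C → f s ≠ 3 := by
    intro C hC e1 e2
    obtain ⟨g1, g2⟩ := hac C hC.1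
    obtain ⟨C', hC', hq, -, h4⟩ := hst.conf _ _ g2 (e1.trans e2.symm)
    have : C' = C := by
      have e3 := (hac C' hC'.1).1
      have e4 := cc_adj (hac C' hC'.1).2
      rcases h4 with ⟨h4, -⟩ | ⟨h4, -⟩
      · rw [← e3, ← h4, g1]
      · rw [← e3, e4, ← h4, g1]
    subst this
    exact hq
  have key : ∀ x, H.connectedComponentMk x = D → f x = k → Fl H bl t a c f k (bl x) →
      (x = a D ∧ ∀ s, H.connectedComponentMk s = D → f s ≠ 3) ∨
      ∃ w, H.connectedComponentMk w = D ∧ Fl H bl t a c f k (bl w) ∧ f w = 3 ∧ H.Adj w x := by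
    intro x hx h1 h2
    rcases fl_cases hst.inj h1 h2 with ⟨C, hC, g1, g2, g3⟩ | ⟨w, g1, g2, g3⟩
    · left
      have : C = D := by
        rw [← hx, g1]; exact (hac C hC.1).1.symm
      subst this
      exact ⟨g1, hconf C hC g2 g3⟩
    · right
      exact ⟨w, (cc_adj g3).trans hx, g1, g2, g3⟩
  rcases (nf_three hk).1 h with ⟨h1, h2⟩ | ⟨h1, h2⟩
  · rcases (nf_three hk).1 h' with ⟨h3, h4⟩ | ⟨h3, h4⟩
    · exact hS D hD hRC s s' hs hs' h1 h3
    · exfalso
      rcases key s' hs' h3 h4 with ⟨-, h5⟩ | ⟨w, h5, h6, h7, h8⟩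
      · exact h5 s hs h1
      · have := hS D hD hRC w s h5 hs h7 h1
        rw [this] at h6
        exact h2 h6
  · rcases (nf_three hk).1 h' with ⟨h3, h4⟩ | ⟨h3, h4⟩
    · exfalso
      rcases key s hs h1 h2 with ⟨-, h5⟩ | ⟨w, h5, h6, h7, h8⟩
      · exact h5 s' hs' h3
      · have := hS D hD hRC w s' h5 hs' h7 h3
        rw [this] at h6
        exact h4 h6
    · rcases key s hs h1 h2 with ⟨e1, h5⟩ | ⟨w, h5, h6, h7, h8⟩
      · rcases key s' hs' h3 h4 with ⟨e2, -⟩ | ⟨w', g5, g6, g7, g8⟩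
        · rw [e1, e2]
        · exact absurd g7 (h5 w' g5)
      · rcases key s' hs' h3 h4 with ⟨e2, g5⟩ | ⟨w', g5, g6, g7, g8⟩
        · exact absurd h7 (g5 w h5)
        · have := hS D hD hRC w w' h5 g5 h7 g7
          subst this
          by_contra hne
          exact hnb w (by rw [h5]; exact hD) ⟨h7, s, s', hne, h8, g8, h1, h3⟩ h6

end H809R4.Tree
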