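import Mathlib
import Pool.Agent.Run7.h493.Main
import Pool.Agent.H809R4.Tree

set_option autoImplicit false
set_option linter.unusedSectionVars false
set_option linter.unusedVariables false

/-! Graphs of maximum degree at most two with few cycles of length four, five and six, or with
at most two cycles missed by a best independent transversal. -/

namespace H809R4.Short

open Finset Run7.h493.Reg Run7.h493.Init Run7.h493.Stage Run7.h493.Main H809R4.Tree

variable {V B : Type*} [Fintype V] [DecidableEq V] [Fintype B] [DecidableEq B]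
variable {H : SimpleGraph V} {bl : V → B} {t : B → V}
variable {a c : H.ConnectedComponent → V} {f : V → Fin 4} {k : Fin 4}
variable {Sh : Finset H.ConnectedComponent}

lemma nf_val {k : Fin 4} {v : V} {x : Fin 4} (h : nf H bl t a c f k v = x) (h1 : x ≠ k)
    (h2 : x ≠ 3) : f v = x := by
  unfold nf at h
  split_ifs at h
  · by_cases h3 : f v = k
    · rw [h3, Equiv.swap_apply_left] at h; exact absurd h.symm h2
    · by_cases h4 : f v = 3
      · rw [h4, Equiv.swap_apply_right] at h; exact absurd h.symm h1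
      · rw [Equiv.swap_apply_of_ne_of_ne h3 h4] at h; exact h
  · exact h

/-- conflict components are quiet -/
lemma conf_quiet {kk : ℕ} (hst : St H bl t a c f kk)
    (hac : ∀ C, Cyc H C → H.connectedComponentMk (a C) = C ∧ H.Adj (a C) (c C)) :
    ∀ C, Un H t C → f (a C) = f (c C) → ∀ s, H.connectedComponentMk s = C → f s ≠ 3 := by
  intro C hC e1
  obtain ⟨g1, g2⟩ := hac C hC.1
  obtain ⟨C', hC', hq, -, h4⟩ := hst.conf _ _ g2 e1
  have : C' = C := by
    have e3 := (hac C' hC'.1).1
    have e4 := cc_adj (hac C' hC'.1).2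
    rcases h4 with ⟨h4, -⟩ | ⟨h4, -⟩
    · rw [← e3, ← h4, g1]
    · rw [← e3, e4, ← h4, g1]
  subst this
  exact hq

section state0

variable (h3 : ∀ v, f v = 3 ↔ v = t (bl v))

include h3

lemma un0 : ∀ C, Un H t C → ∀ s, H.connectedComponentMk s = C → f s ≠ 3 := by
  intro C hC s hs h
  apply hC.2
  refine ⟨bl s, ?_⟩
  rw [← (h3 s).1 h]
  exact hs

lemma hit0 (ht : MaxIT H bl t) : ∀ b, Region H bl t b → f (t b) = 3 ∧
    ∀ s, H.connectedComponentMk s = H.connectedComponentMk (t b) → f s = 3 → s = t b := by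
  intro b hb
  refine ⟨(h3 _).2 (by rw [ht.it.bl]), fun s hs h => ?_⟩
  have h1 := (h3 s).1 h
  have h2 := (region_good ht hb).2 (bl s) (by rw [← h1]; exact hs)
  rw [h1, h2]

lemma reg0 (ht : MaxIT H bl t) : ∀ s, f s = 3 → Region H bl t (bl s) →
    Un H t (H.connectedComponentMk s) ∨
    ∃ b, Region H bl t b ∧ H.connectedComponentMk s = H.connectedComponentMk (t b) := by
  intro s hs hr
  right
  refine ⟨bl s, hr, ?_⟩
  rw [← (h3 s).1 hs]

lemma F0 (ht : MaxIT H bl t) : ∀ u s s', H.Adj u s → H.Adj u s' → f s = 3 → f s' = 3 →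
    Region H bl t (bl s) → s = s' := by
  intro u s s' h1 h2 h4 h5 h6
  rcases reg0 h3 ht s h4 h6 with hC | ⟨b, hb, hs⟩
  · exact absurd h4 (un0 h3 _ hC s rfl)
  · have h7 := (hit0 h3 ht b hb).2 s hs h4
    have h8 := (hit0 h3 ht b hb).2 s' (((cc_adj h2).symm.trans (cc_adj h1)).trans hs) h5
    rw [h7, h8]

lemma single0 (ht : MaxIT H bl t) : Single H bl t Sh f := by
  intro D hD hRC s s' hs hs' h h'
  rcases hRC with hU | ⟨b, hb, rfl⟩
  · exact absurd h (un0 h3 _ hU s hs)
  · rw [(hit0 h3 ht b hb).2 s hs h, (hit0 h3 ht b hb).2 s' hs' h']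

end state0

/-- the facts after the changes of colour 0 -/
structure S1 (H : SimpleGraph V) (bl : V → B) (t : B → V) (Sh : Finset H.ConnectedComponent)
    (f : V → Fin 4) : Prop where
  hit : ∀ b, Region H bl t b → (f (t b) = 3 ∧
      ∀ s, H.connectedComponentMk s = H.connectedComponentMk (t b) → f s = 3 → s = t b) ∨
      (f (t b) = 0 ∧
      ∀ s, H.connectedComponentMk s = H.connectedComponentMk (t b) → f s = 3 →
        H.Adj (t b) s)
  un : ∀ C, Un H t C → (∀ s, H.connectedComponentMk s = C → f s ≠ 3) ∨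
      ∃ x y, H.connectedComponentMk x = C ∧ H.Adj x y ∧
      (∀ s, H.connectedComponentMk s = C → f s = 3 → s = x) ∧ f y = 0 ∧ f x = 3
  single : Single H bl t Sh f

theorem S1.perm (σ : Equiv.Perm (Fin 4)) (h0 : σ 0 = 0) (h3 : σ 3 = 3) (h : S1 H bl t Sh f) :
    S1 H bl t Sh (fun v => σ (f v)) := by
  have h3' : ∀ x, σ x = 3 ↔ x = 3 := by
    intro x
    constructor
    · intro h
      exact σ.injective (h.trans h3.symm)
    · rintro rfl
      exact h3
  refine ⟨?_, ?_, ?_⟩
  · intro b hb
    rcases h.hit b hb with ⟨h1, h2⟩ | ⟨h1, h2⟩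
    · left
      exact ⟨(h3' _).2 h1, fun s hs h => h2 s hs ((h3' _).1 h)⟩
    · right
      exact ⟨by simp only [h1, h0], fun s hs h => h2 s hs ((h3' _).1 h)⟩
  · intro C hC
    rcases h.un C hC with h1 | ⟨x, y, h1, h2, h4, h5, h6⟩
    · left
      exact fun s hs h => h1 s hs ((h3' _).1 h)
    · right
      exact ⟨x, y, h1, h2, fun s hs h => h4 s hs ((h3' _).1 h), by simp only [h5, h0],
        (h3' _).2 h6⟩
  · intro D hD hRC s s' hs hs' e1 e2
    exact h.single D hD hRC s s' hs hs' ((h3' _).1 e1) ((h3' _).1 e2)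

theorem state1 (ht : MaxIT H bl t) (h3 : ∀ v, f v = 3 ↔ v = t (bl v))
    (hac : ∀ C, Cyc H C → H.connectedComponentMk (a C) = C ∧ H.Adj (a C) (c C))
    (hst : St H bl t a c f 0)
    (hnb : ∀ v, H.connectedComponentMk v ∈ Sh → Br H f 0 v → ¬ Fl H bl t a c f 0 (bl v)) :
    St H bl t a c (nf H bl t a c f 0) 1 ∧ S1 H bl t Sh (nf H bl t a c f 0) := by
  have k0 : (0 : Fin 4) ≠ 3 := by decide
  have hst1 := stage (k := 0) (kk := 0) rfl k0 hst hac
    (fun u s s' _ h1 h2 h4 h5 h6 => F0 h3 ht u s s' h1 h2 h4 h5 h6)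
  refine ⟨hst1, ?_, ?_, ?_⟩
  · intro b hb
    obtain ⟨h1, h2⟩ := hit0 h3 ht b hb
    by_cases hfl : Fl H bl t a c f 0 (bl (t b))
    · right
      refine ⟨(nf_k k0).2 (Or.inr ⟨h1, hfl⟩), fun s hs h => ?_⟩
      rcases newthree k0 hst hac hs h with ⟨h3, h4⟩ | ⟨h3, w, h4, h5, h6, -, h7⟩
      · rw [h2 s hs h3] at h4
        exact absurd hfl h4
      · rw [← h2 w h7 h5]
        exact h6
    · left
      refine ⟨(nf_three k0).2 (Or.inl ⟨h1, hfl⟩), fun s hs h => ?_⟩
      rcases newthree k0 hst hac hs h with ⟨h3, h4⟩ | ⟨h3, w, h4, h5, h6, -, h7⟩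
      · exact h2 s hs h3
      · rw [h2 w h7 h5] at h4
        exact absurd h4 hfl
  · intro C hC
    by_cases hex : ∃ s, H.connectedComponentMk s = C ∧ nf H bl t a c f 0 s = 3
    · right
      obtain ⟨s, hs, h⟩ := hex
      have key : ∀ s, H.connectedComponentMk s = C → nf H bl t a c f 0 s = 3 →
          s = a C ∧ f (a C) = 0 ∧ f (c C) = 0 := by
        intro s hs h
        rcases (nf_three k0).1 h with ⟨h1, -⟩ | ⟨h1, h2⟩
        · exact absurd h1 (un0 h3 C hC s hs)
        · exact (quiet k0 hst.inj hac (un0 h3 C hC) hs h1 h2).2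
      obtain ⟨h1, h2, h4⟩ := key s hs h
      obtain ⟨e1, e2⟩ := hac C hC.1
      refine ⟨a C, c C, e1, e2, fun s hs h => (key s hs h).1, ?_, by rw [← h1]; exact h⟩
      apply (nf_k k0).2
      left
      refine ⟨h4, fun hfl => ?_⟩
      have := (quiet k0 hst.inj hac (un0 h3 C hC) ((cc_adj e2).symm.trans e1) h4 hfl).2.1
      rw [this] at e2
      exact H.loopless.irrefl _ e2
    · left
      intro s hs h
      exact hex ⟨s, hs, h⟩
  · exact single_next k0 hst hac (single0 h3 ht) hnb

/-- all cycles of length four lie in `Sh` -/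
def Q4 (H : SimpleGraph V) (Sh : Finset H.ConnectedComponent) : Prop :=
  ∀ a b c d, H.Adj a b → H.Adj b c → H.Adj c d → H.Adj d a → a ≠ c → b ≠ d →
    H.connectedComponentMk a ∈ Sh

theorem F1 {kk : ℕ} (hst : St H bl t a c f kk) (h1 : S1 H bl t Sh f) (h4 : Q4 H Sh) {κ : Fin 4}
    (hκ : κ ≠ 0) : ∀ u s s', f u = κ → H.Adj u s → H.Adj u s' → f s = 3 → f s' = 3 →
      Region H bl t (bl s) → s = s' := by
  intro u s s' hu g1 g2 g3 g4 g5
  rcases hst.reg s g3 g5 with hC | ⟨b, hb, hs⟩
  · rcases h1.un _ hC with h6 | ⟨x, y, -, -, h6, -, -⟩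
    · exact absurd g3 (h6 s rfl)
    · rw [h6 s rfl g3, h6 s' ((cc_adj g2).symm.trans (cc_adj g1)) g4]
  · have hs' : H.connectedComponentMk s' = H.connectedComponentMk (t b) :=
      ((cc_adj g2).symm.trans (cc_adj g1)).trans hs
    by_cases hSh : H.connectedComponentMk s ∈ Sh
    · exact h1.single _ hSh (Or.inr ⟨b, hb, hs⟩) s s' rfl (hs'.trans hs.symm) g3 g4
    · rcases h1.hit b hb with ⟨h6, h7⟩ | ⟨h6, h7⟩
      · rw [h7 s hs g3, h7 s' hs' g4]
      · by_contra hne
        apply hSh
        rw [hs]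
        refine h4 (t b) s u s' (h7 s hs g3) g1.symm g2 (h7 s' hs' g4).symm ?_ hne
        intro h
        rw [h, hu] at h6
        exact hκ h6

/-- transfer of the flipped part under a permutation of the colours -/
theorem fl_perm (σ : Equiv.Perm (Fin 4)) (h3 : σ 3 = 3) {κ : Fin 4} {b : B}
    (h : Fl H bl t a c (fun v => σ (f v)) (σ κ) b) : Fl H bl t a c f κ b := by
  induction h with
  | start C h1 h2 h3' => exact Fl.start C h1 (σ.injective h2) (σ.injective h3')
  | step s u _ h2 h3' h4 ih =>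
    exact Fl.step s u ih (σ.injective (h2.trans h3.symm)) h3' (σ.injective h4)

theorem br_perm (σ : Equiv.Perm (Fin 4)) (h3 : σ 3 = 3) {κ : Fin 4} {v : V}
    (h : Br H (fun v => σ (f v)) (σ κ) v) : Br H f κ v := by
  obtain ⟨h1, u, w, h2, h4, h5, h6, h7⟩ := h
  exact ⟨σ.injective (h1.trans h3.symm), u, w, h2, h4, h5, σ.injective h6, σ.injective h7⟩

/-- the state before the last changes -/
theorem state2 (hdeg : ∀ u a b c, H.Adj u a → H.Adj u b → H.Adj u c → a = b ∨ a = c ∨ b = c)
    (hac : ∀ C, Cyc H C → H.connectedComponentMk (a C) = C ∧ H.Adj (a C) (c C))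
    (hst1 : St H bl t a c f 1) (hS1 : S1 H bl t Sh f) (h4 : Q4 H Sh)
    (h5 : ∀ a b c d e, H.Adj a b → H.Adj b c → H.Adj c d → H.Adj d e → H.Adj e a →
      [a, b, c, d, e].Nodup → H.connectedComponentMk a ∈ Sh)
    (h6 : ∀ a b c d e g, H.Adj a b → H.Adj b c → H.Adj c d → H.Adj d e → H.Adj e g →
      H.Adj g a → [a, b, c, d, e, g].Nodup → H.connectedComponentMk a ∈ Sh)
    (hnb : ∀ v, H.connectedComponentMk v ∈ Sh → Br H f 1 v → ¬ Fl H bl t a c f 1 (bl v)) :
    St H bl t a c (nf H bl t a c f 1) 2 ∧ ∀ u s s', nf H bl t a c f 1 u = 2 → H.Adj u s →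
      H.Adj u s' → nf H bl t a c f 1 s = 3 → nf H bl t a c f 1 s' = 3 →
      Region H bl t (bl s) → s = s' := by
  have k1 : (1 : Fin 4) ≠ 3 := by decide
  have hst2 := stage (k := 1) (kk := 1) rfl k1 hst1 hac (F1 hst1 hS1 h4 (by decide))
  have hsing := single_next k1 hst1 hac hS1.single hnb
  have hcc : ∀ {u v : V}, H.Adj u v → H.connectedComponentMk u = H.connectedComponentMk v :=
    fun h => cc_adj h
  refine ⟨hst2, ?_⟩
  set f2 := nf H bl t a c f 1 with hf2def
  have hit2 : ∀ b, Region H bl t b → (f2 (t b) = 3 ∧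
      ∀ s, H.connectedComponentMk s = H.connectedComponentMk (t b) → f2 s = 3 → s = t b) ∨
      ((f2 (t b) = 0 ∨ f2 (t b) = 1) ∧
      ∀ s, H.connectedComponentMk s = H.connectedComponentMk (t b) → f2 s = 3 →
        H.Adj (t b) s ∨ (f2 (t b) = 0 ∧ ∃ w, H.Adj (t b) w ∧ H.Adj w s ∧ s ≠ t b ∧
          f2 w = 1)) := by
    intro b hb
    rcases hS1.hit b hb with ⟨h1, h2⟩ | ⟨h1, h2⟩
    · by_cases hfl : Fl H bl t a c f 1 (bl (t b))
      · right
        refine ⟨Or.inr ((nf_k k1).2 (Or.inr ⟨h1, hfl⟩)), fun s hs h => ?_⟩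
        left
        rcases newthree k1 hst1 hac hs h with ⟨h3, h4⟩ | ⟨h3, w, h4, h5, h6, -, h7⟩
        · rw [h2 s hs h3] at h4
          exact absurd hfl h4
        · rw [← h2 w h7 h5]
          exact h6
      · left
        refine ⟨(nf_three k1).2 (Or.inl ⟨h1, hfl⟩), fun s hs h => ?_⟩
        rcases newthree k1 hst1 hac hs h with ⟨h3, h4⟩ | ⟨h3, w, h4, h5, h6, -, h7⟩
        · exact h2 s hs h3
        · rw [h2 w h7 h5] at h4
          exact absurd h4 hfl
    · right
      have h0 : f2 (t b) = 0 := by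
        rw [hf2def, nf_other (by rw [h1]; decide) (by rw [h1]; decide)]
        exact h1
      refine ⟨Or.inl h0, fun s hs h => ?_⟩
      rcases newthree k1 hst1 hac hs h with ⟨h3, h4⟩ | ⟨h3, w, h4, h5, h6, h8, h7⟩
      · left
        exact h2 s hs h3
      · right
        refine ⟨h0, w, h2 w h7 h5, h6, ?_, h8⟩
        intro hh
        rw [hh, h1] at h3
        exact absurd h3 (by decide)
  have hun2 : ∀ C, Un H t C → ∀ s s', H.connectedComponentMk s = C →
      H.connectedComponentMk s' = C → f2 s = 3 → f2 s' = 3 → s = s' := by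
    intro C hC
    obtain ⟨e1, e2⟩ := hac C hC.1
    rcases hS1.un C hC with h0 | ⟨x, y, hx, hxy, h0, h1, h1'⟩
    · have key : ∀ s, H.connectedComponentMk s = C → f2 s = 3 → s = a C := by
        intro s hs h
        rcases (nf_three k1).1 h with ⟨h3, -⟩ | ⟨h3, h4⟩
        · exact absurd h3 (h0 s hs)
        · exact (quiet k1 hst1.inj hac h0 hs h3 h4).2.1
      intro s s' hs hs' h h'
      rw [key s hs h, key s' hs' h']
    · have hnc : ∀ s, H.connectedComponentMk s = C → f s = 1 → Fl H bl t a c f 1 (bl s) →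
          ∃ w, Fl H bl t a c f 1 (bl w) ∧ f w = 3 ∧ H.Adj w s := by
        intro s hs g1 g2
        rcases fl_cases hst1.inj g1 g2 with ⟨C', hC', g3, g4, g5⟩ | h
        · exfalso
          have : C' = C := by
            rw [← hs, g3]; exact (hac C' hC'.1).1.symm
          subst this
          exact conf_quiet hst1 hac C' hC' (g4.trans g5.symm) x hx h1'
        · exact h
      by_cases hfl : Fl H bl t a c f 1 (bl x)
      · have key : ∀ s, H.connectedComponentMk s = C → f2 s = 3 → H.Adj x s ∧ s ≠ y := by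
          intro s hs h
          rcases (nf_three k1).1 h with ⟨h3, h4⟩ | ⟨h3, h4⟩
          · rw [h0 s hs h3] at h4
            exact absurd hfl h4
          · obtain ⟨w, g1, g2, g3⟩ := hnc s hs h3 h4
            have := h0 w ((hcc g3).trans hs) g2
            rw [this] at g3
            refine ⟨g3, fun hh => ?_⟩
            rw [hh, h1] at h3
            exact absurd h3 (by decide)
        intro s s' hs hs' h h'
        obtain ⟨g1, g2⟩ := key s hs h
        obtain ⟨g3, g4⟩ := key s' hs' h'
        rcases hdeg _ _ _ _ g1 g3 hxy with g | g | g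
        · exact g
        · exact absurd g g2
        · exact absurd g g4
      · have key : ∀ s, H.connectedComponentMk s = C → f2 s = 3 → s = x := by
          intro s hs h
          rcases (nf_three k1).1 h with ⟨h3, h4⟩ | ⟨h3, h4⟩
          · exact h0 s hs h3
          · obtain ⟨w, g1, g2, g3⟩ := hnc s hs h3 h4
            have := h0 w ((hcc g3).trans hs) g2
            rw [this] at g1
            exact absurd g1 hfl
        intro s s' hs hs' h h'
        rw [key s hs h, key s' hs' h']
  intro u s s' hu h1 h2 h3 h4' h5'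
  rcases hst2.reg s h3 h5' with hC | ⟨b, hb, hs⟩
  · exact hun2 _ hC s s' rfl ((hcc h2).symm.trans (hcc h1)) h3 h4'
  · have hs' : H.connectedComponentMk s' = H.connectedComponentMk (t b) :=
      ((hcc h2).symm.trans (hcc h1)).trans hs
    by_cases hSh : H.connectedComponentMk s ∈ Sh
    · exact hsing _ hSh (Or.inr ⟨b, hb, hs⟩) s s' rfl (hs'.trans hs.symm) h3 h4'
    have hSh' : H.connectedComponentMk (t b) ∈ Sh → False := by
      intro h
      exact hSh (by rw [hs]; exact h)
    rcases hit2 b hb with ⟨h6, h7⟩ | ⟨h6', h7⟩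
    · rw [h7 s hs h3, h7 s' hs' h4']
    · by_contra hne
      have hcol : ∀ x y : V, ∀ p q : Fin 4, f2 x = p → f2 y = q → p ≠ q → x ≠ y := by
        intro x y p q hx hy hpq hxy
        rw [hxy, hy] at hx
        exact hpq hx.symm
      have htu : t b ≠ u := by
        rcases h6' with h6 | h6
        · exact hcol _ _ _ _ h6 hu (by decide)
        · exact hcol _ _ _ _ h6 hu (by decide)
      have hts : t b ≠ s := by
        rcases h6' with h6 | h6
        · exact hcol _ _ _ _ h6 h3 (by decide)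
        · exact hcol _ _ _ _ h6 h3 (by decide)
      have hts' : t b ≠ s' := by
        rcases h6' with h6 | h6
        · exact hcol _ _ _ _ h6 h4' (by decide)
        · exact hcol _ _ _ _ h6 h4' (by decide)
      have hus : u ≠ s := hcol _ _ _ _ hu h3 (by decide)
      have hus' : u ≠ s' := hcol _ _ _ _ hu h4' (by decide)
      rcases h7 s hs h3 with g | ⟨g0, w, g1, g2, g3, g4⟩
      · rcases h7 s' hs' h4' with g' | ⟨g0', w', g1', g2', g3', g4'⟩
        · exact hSh' (h4 (t b) s u s' g h1.symm h2 g'.symm htu hne)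
        · have w1 : w' ≠ u := hcol _ _ _ _ g4' hu (by decide)
          have w2 : w' ≠ s := hcol _ _ _ _ g4' h3 (by decide)
          have w3 : w' ≠ s' := hcol _ _ _ _ g4' h4' (by decide)
          have w4 : w' ≠ t b := g1'.ne'
          refine hSh' (h5 (t b) s u s' w' g h1.symm h2 g2'.symm g1'.symm ?_)
          simp only [List.nodup_cons, List.mem_cons, List.not_mem_nil, or_false, not_or,
            List.nodup_nil, and_true, not_false_eq_true]
          exact ⟨⟨hts, htu, hts', w4.symm⟩, ⟨hus.symm, hne, w2.symm⟩, ⟨hus', w1.symm⟩,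
            w3.symm⟩
      · have w1 : w ≠ u := hcol _ _ _ _ g4 hu (by decide)
        have w2 : w ≠ s := hcol _ _ _ _ g4 h3 (by decide)
        have w3 : w ≠ s' := hcol _ _ _ _ g4 h4' (by decide)
        have w4 : w ≠ t b := g1.ne'
        rcases h7 s' hs' h4' with g' | ⟨g0', w', g1', g2', g3', g4'⟩
        · refine hSh' (h5 (t b) s' u s w g' h2.symm h1 g2.symm g1.symm ?_)
          simp only [List.nodup_cons, List.mem_cons, List.not_mem_nil, or_false, not_or,
            List.nodup_nil, and_true, not_false_eq_true]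
          exact ⟨⟨hts', htu, hts, w4.symm⟩, ⟨hus'.symm, Ne.symm hne, w3.symm⟩,
            ⟨hus, w1.symm⟩, w2.symm⟩
        · have v1 : w' ≠ u := hcol _ _ _ _ g4' hu (by decide)
          have v2 : w' ≠ s := hcol _ _ _ _ g4' h3 (by decide)
          have v3 : w' ≠ s' := hcol _ _ _ _ g4' h4' (by decide)
          have v4 : w' ≠ t b := g1'.ne'
          have hww : w ≠ w' := by
            intro hh
            subst hh
            rcases hdeg w (t b) s s' g1.symm g2 g2' with h | h | h
            · exact hts h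
            · exact hts' h
            · exact hne h
          refine hSh' (h6 (t b) w s u s' w' g1 g2 h1.symm h2 g2'.symm g1'.symm ?_)
          simp only [List.nodup_cons, List.mem_cons, List.not_mem_nil, or_false, not_or,
            List.nodup_nil, and_true, not_false_eq_true]
          exact ⟨⟨w4.symm, hts, htu, hts', v4.symm⟩, ⟨w2, w1, w3, hww⟩,
            ⟨hus.symm, hne, v2.symm⟩, ⟨hus', v1.symm⟩, v3.symm⟩

end H809R4.Short
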