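import Mathlib
import Pool.Agent.H809R4.Short
import Pool.Agent.H809R4.Count

set_option autoImplicit false
set_option linter.unusedSectionVars false
set_option linter.unusedVariables false

/-! The colourings. -/

namespace H809R4.Col

open Finset Run7.h493.Reg Run7.h493.Init Run7.h493.Stage Run7.h493.Main H809R4.Tree H809R4.Short

variable {V B : Type*} [Fintype V] [DecidableEq V] [Fintype B] [DecidableEq B]
variable {H : SimpleGraph V} {bl : V → B} {t : B → V}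
variable {a c : H.ConnectedComponent → V} {f : V → Fin 4} {k : Fin 4}
variable {Sh : Finset H.ConnectedComponent}

/-- a proper colouring with four colours, injective on blocks -/
def Goal (H : SimpleGraph V) (bl : V → B) : Prop :=
  ∃ f : V → Fin 4, (∀ u v, H.Adj u v → f u ≠ f v) ∧ (∀ u v, bl u = bl v → f u = f v → u = v)

lemma perm_three {σ : Equiv.Perm (Fin 4)} (h3 : σ 3 = 3) (x : Fin 4) : σ x = 3 ↔ x = 3 := by
  constructor
  · intro h
    exact σ.injective (h.trans h3.symm)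
  · rintro rfl
    exact h3

/-- the initial state -/
theorem start (ht : MaxIT H bl t)
    (hbl : ∀ b, (Finset.univ.filter (fun v => bl v = b)).card = 4)
    (hdeg : ∀ u a b c, H.Adj u a → H.Adj u b → H.Adj u c → a = b ∨ a = c ∨ b = c) :
    ∃ (a c : H.ConnectedComponent → V) (f : V → Fin 4),
      (∀ C, Cyc H C → H.connectedComponentMk (a C) = C ∧ H.Adj (a C) (c C)) ∧
      (∀ v, f v = 3 ↔ v = t (bl v)) ∧ St H bl t a c f 0 := by
  obtain ⟨a, c, hac⟩ := exists_open H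
  obtain ⟨f, hf1, hf2, hf3⟩ := init ht.it hbl hdeg a c hac
  refine ⟨a, c, f, hac, hf3, hf1, ?_, reg0 hf3 ht⟩
  intro u v huv h
  obtain ⟨C, hC, h4⟩ := hf2 u v huv h
  exact ⟨C, hC, un0 hf3 C hC, Nat.zero_le _, h4⟩

/-- at most one cycle is missed -/
theorem one (ht : MaxIT H bl t)
    (hbl : ∀ b, (Finset.univ.filter (fun v => bl v = b)).card = 4)
    (hdeg : ∀ u a b c, H.Adj u a → H.Adj u b → H.Adj u c → a = b ∨ a = c ∨ b = c)
    (h1 : ∀ C C', Un H t C → Un H t C' → C = C') : Goal H bl := by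
  obtain ⟨a, c, f, hac, h3, hst⟩ := start ht hbl hdeg
  by_cases hc : ∃ C, Un H t C ∧ f (a C) = f (c C)
  · obtain ⟨C0, hC0, e⟩ := hc
    have hκ : f (a C0) ≠ 3 := un0 h3 C0 hC0 _ (hac C0 hC0.1).1
    set σ : Equiv.Perm (Fin 4) := Equiv.swap (f (a C0)) 0 with hσ
    have hσ3 : σ 3 = 3 := Equiv.swap_apply_of_ne_of_ne (Ne.symm hκ) (by decide)
    have hσ0 : σ (f (a C0)) = 0 := Equiv.swap_apply_left _ _
    have hst' := st_perm σ hσ3 (fun x _ _ => Nat.zero_le _) hac hst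
    have h3' : ∀ v, σ (f v) = 3 ↔ v = t (bl v) := fun v => (perm_three hσ3 _).trans (h3 v)
    have k0 : (0 : Fin 4) ≠ 3 := by decide
    have hst1 := stage (k := 0) (kk := 0) rfl k0 hst' hac
      (fun u s s' _ h1 h2 h4 h5 h6 => F0 (f := fun v => σ (f v)) h3' ht u s s' h1 h2 h4 h5 h6)
    refine ⟨_, ?_, hst1.inj⟩
    intro u v huv h
    obtain ⟨C, hC, hq, hle, h4⟩ := hst1.conf u v huv h
    have := h1 C C0 hC hC0
    subst this
    have hu3 : nf H bl t a c (fun v => σ (f v)) 0 u ≠ 3 := by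
      apply hq
      rcases h4 with ⟨h4, -⟩ | ⟨h4, -⟩
      · rw [h4]; exact (hac C hC.1).1
      · rw [h4, ← cc_adj (hac C hC.1).2]; exact (hac C hC.1).1
    have hu0 : nf H bl t a c (fun v => σ (f v)) 0 u ≠ 0 := by
      intro h
      rw [h] at hle
      exact absurd hle (by decide)
    have e1 := nf_val rfl hu0 hu3
    have e2 := nf_val (v := v) h.symm hu0 hu3
    rcases h4 with ⟨h4, -⟩ | ⟨-, h4⟩
    · rw [h4] at e1 hu0
      exact hu0 (e1.symm.trans hσ0)
    · rw [h4] at e2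
      exact hu0 (e2.symm.trans hσ0)
  · refine ⟨f, ?_, hst.inj⟩
    intro u v huv h
    obtain ⟨C, hC, -, -, h4⟩ := hst.conf u v huv h
    apply hc
    refine ⟨C, hC, ?_⟩
    rcases h4 with ⟨h4, h5⟩ | ⟨h4, h5⟩
    · rw [← h4, ← h5]; exact h
    · rw [← h4, ← h5]; exact h.symm

/-- the state after the changes of a good colour -/
theorem first (ht : MaxIT H bl t)
    (hdeg : ∀ u a b c, H.Adj u a → H.Adj u b → H.Adj u c → a = b ∨ a = c ∨ b = c)
    (hac : ∀ C, Cyc H C → H.connectedComponentMk (a C) = C ∧ H.Adj (a C) (c C))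
    (h3 : ∀ v, f v = 3 ↔ v = t (bl v)) (hst : St H bl t a c f 0) (hSh : Sh.card ≤ 3) :
    ∃ (a' c' : H.ConnectedComponent → V) (g : V → Fin 4) (σ : Equiv.Perm (Fin 4)),
      (∀ C, (a' C = a C ∧ c' C = c C) ∨ (a' C = c C ∧ c' C = a C)) ∧
      σ 2 = 2 ∧ (∀ v x, g v = x → x ≠ 0 → x ≠ 3 → σ (f v) = x) ∧
      St H bl t a' c' g 1 ∧ S1 H bl t Sh g := by
  obtain ⟨κ, hκ, hg⟩ := good_colour hst hdeg hac (single0 h3 ht) hSh
    (k := 0) (k' := 1) (by decide)
    (fun κ _ u s s' _ h1 h2 h4 h5 h6 => F0 h3 ht u s s' h1 h2 h4 h5 h6)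
  obtain ⟨a', c', hor, hnb⟩ := orient hst hac hg
  set σ : Equiv.Perm (Fin 4) := Equiv.swap κ 0 with hσ
  have hσ3 : σ 3 = 3 := by
    rcases hκ with rfl | rfl <;> rw [hσ] <;> decide
  have hσ2 : σ 2 = 2 := by
    rcases hκ with rfl | rfl <;> rw [hσ] <;> decide
  have hσ0 : σ κ = 0 := Equiv.swap_apply_left _ _
  have hac' := hac_orient hor hac
  have hst' := st_perm σ hσ3 (fun x _ _ => Nat.zero_le _) hac' (st_orient hor hst)
  have h3' : ∀ v, σ (f v) = 3 ↔ v = t (bl v) := fun v => (perm_three hσ3 _).trans (h3 v)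
  obtain ⟨hst1, hS1⟩ := state1 (Sh := Sh) ht h3' hac' hst' (by
    intro v hv hb hfl
    rw [← hσ0] at hb hfl
    exact hnb v hv (br_perm σ hσ3 hb) (fl_perm σ hσ3 hfl))
  refine ⟨a', c', _, σ, hor, hσ2, ?_, hst1, hS1⟩
  intro v x hx h1 h2
  exact nf_val (f := fun v => σ (f v)) hx h1 h2

/-- at most two cycles are missed and there are at most three cycles of length four -/
theorem two (ht : MaxIT H bl t)
    (hbl : ∀ b, (Finset.univ.filter (fun v => bl v = b)).card = 4)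
    (hdeg : ∀ u a b c, H.Adj u a → H.Adj u b → H.Adj u c → a = b ∨ a = c ∨ b = c)
    (h2 : ∀ C C' C'', Un H t C → Un H t C' → Un H t C'' → C = C' ∨ C = C'' ∨ C' = C'')
    (hSh : Sh.card ≤ 3) (h4 : Q4 H Sh) : Goal H bl := by
  obtain ⟨a, c, f0, hac, h30, hst0⟩ := start ht hbl hdeg
  obtain ⟨m, hm3, hm⟩ : ∃ m : Fin 4, m ≠ 3 ∧ ∀ C, Un H t C → f0 (a C) = f0 (c C) →
      f0 (a C) ≠ m := by
    by_contra hcon
    push Not at hcon
    obtain ⟨C0, u0, -, e0⟩ := hcon 0 (by decide)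
    obtain ⟨C1, u1, -, e1⟩ := hcon 1 (by decide)
    obtain ⟨C2, u2, -, e2⟩ := hcon 2 (by decide)
    rcases h2 C0 C1 C2 u0 u1 u2 with h | h | h
    · rw [h, e1] at e0; exact absurd e0 (by decide)
    · rw [h, e2] at e0; exact absurd e0 (by decide)
    · rw [h, e2] at e1; exact absurd e1 (by decide)
  -- the missing colour becomes 2
  set τ : Equiv.Perm (Fin 4) := Equiv.swap m 2 with hτ
  have hτ3 : τ 3 = 3 := Equiv.swap_apply_of_ne_of_ne (Ne.symm hm3) (by decide)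
  have hτm : τ m = 2 := Equiv.swap_apply_left _ _
  have hst := st_perm τ hτ3 (fun x _ _ => Nat.zero_le _) hac hst0
  have h3 : ∀ v, τ (f0 v) = 3 ↔ v = t (bl v) := fun v => (perm_three hτ3 _).trans (h30 v)
  have hm' : ∀ C, Un H t C → τ (f0 (a C)) = 2 → τ (f0 (c C)) = 2 → False := by
    intro C hC e1 e2
    have e3 := τ.injective (e1.trans hτm.symm)
    have e4 := τ.injective (e2.trans hτm.symm)
    exact hm C hC (e3.trans e4.symm) e3
  obtain ⟨a', c', g, σ, hor, hσ2, hval, hst1, hS1⟩ :=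
    first (Sh := Sh) (f := fun v => τ (f0 v)) ht hdeg hac h3 hst hSh
  have hac' := hac_orient hor hac
  have k1 : (1 : Fin 4) ≠ 3 := by decide
  have hst2 := stage (k := 1) (kk := 1) rfl k1 hst1 hac' (F1 hst1 hS1 h4 (by decide))
  refine ⟨_, ?_, hst2.inj⟩
  intro u v huv h
  obtain ⟨C, hC, hq, hle, h5⟩ := hst2.conf u v huv h
  have hu3 : nf H bl t a' c' g 1 u ≠ 3 := by
    apply hq
    rcases h5 with ⟨h5, -⟩ | ⟨h5, -⟩
    · rw [h5]; exact (hac' C hC.1).1
    · rw [h5, ← cc_adj (hac' C hC.1).2]; exact (hac' C hC.1).1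
  have hu2 : nf H bl t a' c' g 1 u = 2 := by
    have h6 := (nf H bl t a' c' g 1 u).2
    have h7 : ((nf H bl t a' c' g 1 u : Fin 4) : ℕ) ≠ 3 := fun h => hu3 (Fin.ext h)
    apply Fin.ext
    show ((nf H bl t a' c' g 1 u : Fin 4) : ℕ) = 2
    omega
  have e1 := hval u 2 (nf_val hu2 (by decide) (by decide)) (by decide) (by decide)
  have e2 := hval v 2 (nf_val (h.symm.trans hu2) (by decide) (by decide)) (by decide) (by decide)
  have e1' : τ (f0 u) = 2 := σ.injective (e1.trans hσ2.symm)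
  have e2' : τ (f0 v) = 2 := σ.injective (e2.trans hσ2.symm)
  rcases hor C with ⟨g1, g2⟩ | ⟨g1, g2⟩
  · rcases h5 with ⟨h5, h6⟩ | ⟨h5, h6⟩
    · rw [h5, g1] at e1'; rw [h6, g2] at e2'; exact hm' C hC e1' e2'
    · rw [h5, g2] at e1'; rw [h6, g1] at e2'; exact hm' C hC e2' e1'
  · rcases h5 with ⟨h5, h6⟩ | ⟨h5, h6⟩
    · rw [h5, g1] at e1'; rw [h6, g2] at e2'; exact hm' C hC e2' e1'
    · rw [h5, g2] at e1'; rw [h6, g1] at e2'; exact hm' C hC e1' e2'

/-- at most three cycles of length four, five or six -/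
theorem three (ht : MaxIT H bl t)
    (hbl : ∀ b, (Finset.univ.filter (fun v => bl v = b)).card = 4)
    (hdeg : ∀ u a b c, H.Adj u a → H.Adj u b → H.Adj u c → a = b ∨ a = c ∨ b = c)
    (hSh : Sh.card ≤ 3) (h4 : Q4 H Sh)
    (h5 : ∀ a b c d e, H.Adj a b → H.Adj b c → H.Adj c d → H.Adj d e → H.Adj e a →
      [a, b, c, d, e].Nodup → H.connectedComponentMk a ∈ Sh)
    (h6 : ∀ a b c d e g, H.Adj a b → H.Adj b c → H.Adj c d → H.Adj d e → H.Adj e g →
      H.Adj g a → [a, b, c, d, e, g].Nodup → H.connectedComponentMk a ∈ Sh) : Goal H bl := by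
  obtain ⟨a, c, f, hac, h3, hst⟩ := start ht hbl hdeg
  obtain ⟨a', c', g, -, hor, -, -, hst1, hS1⟩ := first (Sh := Sh) ht hdeg hac h3 hst hSh
  have hac' := hac_orient hor hac
  obtain ⟨κ, hκ, hg⟩ := good_colour hst1 hdeg hac' hS1.single hSh
    (k := 1) (k' := 2) (by decide) (by
      rintro κ (rfl | rfl)
      · exact F1 hst1 hS1 h4 (by decide)
      · exact F1 hst1 hS1 h4 (by decide))
  obtain ⟨a'', c'', hor', hnb⟩ := orient hst1 hac' hg
  set σ : Equiv.Perm (Fin 4) := Equiv.swap κ 1 with hσ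
  have hσ3 : σ 3 = 3 := by
    rcases hκ with rfl | rfl <;> rw [hσ] <;> decide
  have hσ0 : σ 0 = 0 := by
    rcases hκ with rfl | rfl <;> rw [hσ] <;> decide
  have hσ1 : σ κ = 1 := Equiv.swap_apply_left _ _
  have hac'' := hac_orient hor' hac'
  have hst1' := st_perm σ hσ3 (by
    rcases hκ with rfl | rfl <;> rw [hσ] <;> decide) hac'' (st_orient hor' hst1)
  obtain ⟨hst2, hF2⟩ := state2 (Sh := Sh) hdeg hac'' hst1' (hS1.perm σ hσ0 hσ3) h4 h5 h6 (by
    intro v hv hb hfl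
    rw [← hσ1] at hb hfl
    exact hnb v hv (br_perm σ hσ3 hb) (fl_perm σ hσ3 hfl))
  have k2 : (2 : Fin 4) ≠ 3 := by decide
  have hst3 := stage (k := 2) (kk := 2) rfl k2 hst2 hac'' hF2
  refine ⟨_, ?_, hst3.inj⟩
  intro u v huv h
  obtain ⟨C, hC, hq, hle, h7⟩ := hst3.conf u v huv h
  have hu3 := hq u (by
    rcases h7 with ⟨h7, -⟩ | ⟨h7, -⟩
    · rw [h7]; exact (hac'' C hC.1).1
    · rw [h7, ← cc_adj (hac'' C hC.1).2]; exact (hac'' C hC.1).1)
  apply hu3
  apply Fin.ext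
  have := (nf H bl t a'' c'' (nf H bl t a'' c'' (fun v => σ (g v)) 1) 2 u).2
  show ((nf H bl t a'' c'' (nf H bl t a'' c'' (fun v => σ (g v)) 1) 2 u : Fin 4) : ℕ) = 3
  omega

end H809R4.Col
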