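import Mathlib
import Pool.Agent.Run7.h493.Walks
import Pool.Agent.H809R4.Col

set_option autoImplicit false
set_option linter.unusedSectionVars false
set_option linter.unusedVariables false

/-! Numbers of short cycles and the final form. -/

namespace H809R4

open Finset Run7.h493.Reg Run7.h493.Init H809R4.Count H809R4.Short H809R4.Col

/-- The number of connected components of `G` that are cycles with exactly `n` vertices, that is
components with exactly `n` vertices in which every vertex has exactly two neighbours. -/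
noncomputable def cycleCount {V : Type*} (G : SimpleGraph V) (n : ℕ) : ℕ :=
  Set.ncard {C : G.ConnectedComponent | C.supp.ncard = n ∧
    ∀ v ∈ C.supp, (G.neighborSet v).ncard = 2}

section

variable {V : Type*} [Fintype V] [DecidableEq V] {H : SimpleGraph V}

theorem comp_eq (hdeg : ∀ u a b c, H.Adj u a → H.Adj u b → H.Adj u c → a = b ∨ a = c ∨ b = c)
    (S : Finset V) (a : V) (ha : a ∈ S)
    (hS : ∀ x ∈ S, ∃ y ∈ S, ∃ z ∈ S, y ≠ z ∧ H.Adj x y ∧ H.Adj x z)
    (hc : ∀ x ∈ S, H.connectedComponentMk x = H.connectedComponentMk a) :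
    vs H (H.connectedComponentMk a) = S ∧ Cyc H (H.connectedComponentMk a) := by
  have hcl : ∀ x ∈ S, ∀ w, H.Adj x w → w ∈ S := by
    intro x hx w hw
    obtain ⟨y, hy, z, hz, hyz, h1, h2⟩ := hS x hx
    rcases hdeg x y z w h1 h2 hw with h | h | h
    · exact absurd h hyz
    · rw [← h]; exact hy
    · rw [← h]; exact hz
  have hre : ∀ v, H.connectedComponentMk v = H.connectedComponentMk a → v ∈ S := by
    intro v hv
    obtain ⟨p⟩ := SimpleGraph.ConnectedComponent.exact hv.symm
    have : ∀ (u w : V) (p : H.Walk u w), u ∈ S → w ∈ S := by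
      intro u w p
      induction p with
      | nil => exact id
      | cons h p ih => exact fun hu => ih (hcl _ hu _ h)
    exact this _ _ p ha
  constructor
  · ext v
    rw [mem_vs]
    exact ⟨hre v, hc v⟩
  · intro v hv
    obtain ⟨y, hy, z, hz, hyz, h1, h2⟩ := hS v (hre v hv)
    exact ⟨y, z, hyz, h1, h2⟩

theorem vs_supp (C : H.ConnectedComponent) : C.supp.ncard = (vs H C).card := by
  rw [← Set.ncard_coe_finset]
  congr 1
  ext v
  simp [mem_vs, SimpleGraph.ConnectedComponent.mem_supp_iff]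

theorem cyc_deg (hdeg : ∀ u a b c, H.Adj u a → H.Adj u b → H.Adj u c → a = b ∨ a = c ∨ b = c)
    {C : H.ConnectedComponent} (hC : Cyc H C) : ∀ v ∈ C.supp, (H.neighborSet v).ncard = 2 := by
  intro v hv
  obtain ⟨x, y, hxy, hx, hy⟩ := hC v hv
  rw [Set.ncard_eq_two]
  refine ⟨x, y, hxy, ?_⟩
  ext w
  simp only [SimpleGraph.mem_neighborSet, Set.mem_insert_iff, Set.mem_singleton_iff]
  constructor
  · intro hw
    rcases hdeg v x y w hx hy hw with h | h | h
    · exact absurd h hxy
    · exact Or.inl h.symm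
    · exact Or.inr h.symm
  · rintro (rfl | rfl)
    · exact hx
    · exact hy

/-- the components that are cycles of length `n` -/
noncomputable def cs (H : SimpleGraph V) (n : ℕ) : Finset H.ConnectedComponent := by
  classical exact Finset.univ.filter (fun C => (vs H C).card = n ∧ Cyc H C)

lemma mem_cs {n : ℕ} {C : H.ConnectedComponent} : C ∈ cs H n ↔ (vs H C).card = n ∧ Cyc H C := by
  classical
  unfold cs
  simp

theorem cs_card (hdeg : ∀ u a b c, H.Adj u a → H.Adj u b → H.Adj u c → a = b ∨ a = c ∨ b = c)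
    (n : ℕ) : (cs H n).card ≤ cycleCount H n := by
  classical
  unfold cycleCount
  rw [← Set.ncard_coe_finset]
  apply Set.ncard_le_ncard _ (Set.toFinite _)
  intro C hC
  have hC := mem_cs.1 (Finset.mem_coe.1 hC)
  exact ⟨by rw [vs_supp]; exact hC.1, cyc_deg hdeg hC.2⟩

theorem c4 (hdeg : ∀ u a b c, H.Adj u a → H.Adj u b → H.Adj u c → a = b ∨ a = c ∨ b = c)
    (a b c d : V) (h1 : H.Adj a b) (h2 : H.Adj b c) (h3 : H.Adj c d) (h4 : H.Adj d a)
    (hac : a ≠ c) (hbd : b ≠ d) : H.connectedComponentMk a ∈ cs H 4 := by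
  have key := comp_eq hdeg ([a, b, c, d].toFinset) a (by simp) (by
      intro x hx
      simp only [List.mem_toFinset, List.mem_cons, List.not_mem_nil, or_false] at hx
      rcases hx with rfl | rfl | rfl | rfl
      · exact ⟨b, by simp, d, by simp, hbd, h1, h4.symm⟩
      · exact ⟨a, by simp, c, by simp, hac, h1.symm, h2⟩
      · exact ⟨b, by simp, d, by simp, hbd, h2.symm, h3⟩
      · exact ⟨a, by simp, c, by simp, hac, h4, h3.symm⟩) (by
      intro x hx
      simp only [List.mem_toFinset, List.mem_cons, List.not_mem_nil, or_false] at hx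
      rcases hx with rfl | rfl | rfl | rfl
      · rfl
      · exact (cc_adj h1).symm
      · exact ((cc_adj h1).trans (cc_adj h2)).symm
      · exact cc_adj h4)
  rw [mem_cs]
  refine ⟨?_, key.2⟩
  rw [key.1, List.toFinset_card_of_nodup]
  · rfl
  · have e1 := h1.ne
    have e2 := h2.ne
    have e3 := h3.ne
    have e4 := h4.ne'
    simp only [List.nodup_cons, List.mem_cons, List.not_mem_nil, or_false, not_or,
      List.nodup_nil, and_true, not_false_eq_true]
    exact ⟨⟨e1, hac, e4⟩, ⟨e2, hbd⟩, e3⟩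

theorem c5 (hdeg : ∀ u a b c, H.Adj u a → H.Adj u b → H.Adj u c → a = b ∨ a = c ∨ b = c)
    (a b c d e : V) (h1 : H.Adj a b) (h2 : H.Adj b c) (h3 : H.Adj c d) (h4 : H.Adj d e)
    (h5 : H.Adj e a) (hn : [a, b, c, d, e].Nodup) : H.connectedComponentMk a ∈ cs H 5 := by
  have hn' := hn
  simp only [List.nodup_cons, List.mem_cons, List.not_mem_nil, or_false, not_or,
    List.nodup_nil, and_true, not_false_eq_true] at hn'
  obtain ⟨⟨n1, n2, n3, n4⟩, ⟨n5, n6, n7⟩, ⟨n8, n9⟩, n10⟩ := hn'
  have key := comp_eq hdeg ([a, b, c, d, e].toFinset) a (by simp) (by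
      intro x hx
      simp only [List.mem_toFinset, List.mem_cons, List.not_mem_nil, or_false] at hx
      rcases hx with rfl | rfl | rfl | rfl | rfl
      · exact ⟨b, by simp, e, by simp, n7, h1, h5.symm⟩
      · exact ⟨a, by simp, c, by simp, n2, h1.symm, h2⟩
      · exact ⟨b, by simp, d, by simp, n6, h2.symm, h3⟩
      · exact ⟨c, by simp, e, by simp, n9, h3.symm, h4⟩
      · exact ⟨a, by simp, d, by simp, n3, h5, h4.symm⟩) (by
      intro x hx
      simp only [List.mem_toFinset, List.mem_cons, List.not_mem_nil, or_false] at hx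
      rcases hx with rfl | rfl | rfl | rfl | rfl
      · rfl
      · exact (cc_adj h1).symm
      · exact ((cc_adj h1).trans (cc_adj h2)).symm
      · exact (cc_adj h4).trans (cc_adj h5)
      · exact cc_adj h5)
  rw [mem_cs]
  refine ⟨?_, key.2⟩
  rw [key.1, List.toFinset_card_of_nodup hn]
  rfl

theorem c6 (hdeg : ∀ u a b c, H.Adj u a → H.Adj u b → H.Adj u c → a = b ∨ a = c ∨ b = c)
    (a b c d e g : V) (h1 : H.Adj a b) (h2 : H.Adj b c) (h3 : H.Adj c d) (h4 : H.Adj d e)
    (h5 : H.Adj e g) (h6 : H.Adj g a) (hn : [a, b, c, d, e, g].Nodup) :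
    H.connectedComponentMk a ∈ cs H 6 := by
  have hn' := hn
  simp only [List.nodup_cons, List.mem_cons, List.not_mem_nil, or_false, not_or,
    List.nodup_nil, and_true, not_false_eq_true] at hn'
  obtain ⟨⟨n1, n2, n3, n4, n5⟩, ⟨n6, n7, n8, n9⟩, ⟨n10, n11, n12⟩, ⟨n13, n14⟩, n15⟩ := hn'
  have key := comp_eq hdeg ([a, b, c, d, e, g].toFinset) a (by simp) (by
      intro x hx
      simp only [List.mem_toFinset, List.mem_cons, List.not_mem_nil, or_false] at hx
      rcases hx with rfl | rfl | rfl | rfl | rfl | rfl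
      · exact ⟨b, by simp, g, by simp, n9, h1, h6.symm⟩
      · exact ⟨a, by simp, c, by simp, n2, h1.symm, h2⟩
      · exact ⟨b, by simp, d, by simp, n7, h2.symm, h3⟩
      · exact ⟨c, by simp, e, by simp, n11, h3.symm, h4⟩
      · exact ⟨d, by simp, g, by simp, n14, h4.symm, h5⟩
      · exact ⟨a, by simp, e, by simp, n4, h6, h5.symm⟩) (by
      intro x hx
      simp only [List.mem_toFinset, List.mem_cons, List.not_mem_nil, or_false] at hx
      rcases hx with rfl | rfl | rfl | rfl | rfl | rfl
      · rfl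
      · exact (cc_adj h1).symm
      · exact ((cc_adj h1).trans (cc_adj h2)).symm
      · exact ((cc_adj h4).trans (cc_adj h5)).trans (cc_adj h6)
      · exact (cc_adj h5).trans (cc_adj h6)
      · exact cc_adj h6)
  rw [mem_cs]
  refine ⟨?_, key.2⟩
  rw [key.1, List.toFinset_card_of_nodup hn]
  rfl

end

/-- triangles are counted by the cliques of size three -/
theorem cycleCount_three {V : Type*} [Fintype V] [DecidableEq V] (G : SimpleGraph V)
    [DecidableRel G.Adj] : cycleCount G 3 ≤ (G.cliqueFinset 3).card := by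
  classical
  unfold cycleCount
  rw [← Set.ncard_coe_finset]
  apply Set.ncard_le_ncard_of_injOn (fun C : G.ConnectedComponent => vs G C)
  · rintro C ⟨h1, h2⟩
    rw [Finset.mem_coe, SimpleGraph.mem_cliqueFinset_iff]
    rw [vs_supp] at h1
    refine ⟨?_, h1⟩
    intro x hx y hy hxy
    have hx' := Finset.mem_coe.1 hx
    have hy' := Finset.mem_coe.1 hy
    have h3 := h2 x (mem_vs.1 hx')
    have h4 : G.neighborSet x ⊆ (((vs G C).erase x : Finset V) : Set V) := by
      intro w hw
      rw [SimpleGraph.mem_neighborSet] at hw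
      rw [Finset.mem_coe, Finset.mem_erase, mem_vs]
      exact ⟨hw.ne', by rw [← cc_adj hw]; exact mem_vs.1 hx'⟩
    have h5 : (((vs G C).erase x : Finset V) : Set V).ncard = 2 := by
      rw [Set.ncard_coe_finset, Finset.card_erase_of_mem hx', h1]
    have h6 := Set.eq_of_subset_of_ncard_le h4 (by rw [h3, h5]) (Set.toFinite _)
    have h7 : y ∈ G.neighborSet x := by
      rw [h6, Finset.mem_coe, Finset.mem_erase]
      exact ⟨Ne.symm hxy, hy'⟩
    exact h7
  · intro C _ D _ h
    obtain ⟨v, hv⟩ := Quot.exists_rep C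
    have hv : G.connectedComponentMk v = C := hv
    have h1 : v ∈ vs G C := mem_vs.2 hv
    simp only at h
    rw [h, mem_vs] at h1
    rw [← hv, h1]

theorem goal {V B : Type*} [Fintype V] [DecidableEq V] [Fintype B] [DecidableEq B]
    (H : SimpleGraph V) (bl : V → B)
    (hbl : ∀ b, (Finset.univ.filter (fun v => bl v = b)).card = 4)
    (hdeg : ∀ u a b c, H.Adj u a → H.Adj u b → H.Adj u c → a = b ∨ a = c ∨ b = c)
    (h : cycleCount H 3 ≤ 7 ∨ (cycleCount H 3 ≤ 11 ∧ cycleCount H 4 ≤ 3) ∨
      cycleCount H 4 + cycleCount H 5 + cycleCount H 6 ≤ 3) : Goal H bl := by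
  classical
  obtain ⟨t, ht⟩ := exists_max H bl hbl hdeg
  set S : Finset H.ConnectedComponent := Finset.univ.filter (fun C => Un H t C) with hS
  have hfour : 4 * S.card ≤ cycleCount H 3 :=
    (four_le ht hbl S (cs H 3) (fun C hC => by simpa [hS] using hC)
      (fun C hC h => mem_cs.2 ⟨h, hC⟩)).trans (cs_card hdeg 3)
  have hmem : ∀ C, Un H t C → C ∈ S := fun C hC => by simpa [hS] using hC
  rcases h with h | ⟨h, h'⟩ | h
  · apply one ht hbl hdeg
    have h1 : S.card ≤ 1 := by omega
    intro C C' hC hC'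
    exact Finset.card_le_one.1 h1 C (hmem C hC) C' (hmem C' hC')
  · refine two (Sh := cs H 4) ht hbl hdeg ?_ ((cs_card hdeg 4).trans h') ?_
    · intro C1 C2 C3 u1 u2 u3
      by_contra hcon
      push Not at hcon
      have h1 : ({C1, C2, C3} : Finset H.ConnectedComponent) ⊆ S := by
        intro x hx
        simp only [Finset.mem_insert, Finset.mem_singleton] at hx
        rcases hx with rfl | rfl | rfl
        · exact hmem _ u1
        · exact hmem _ u2
        · exact hmem _ u3
      have h2 := Finset.card_le_card h1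
      rw [Finset.card_eq_three.2 ⟨C1, C2, C3, hcon.1, hcon.2.1, hcon.2.2, rfl⟩] at h2
      omega
    · intro a b c d h1 h2 h3 h4 h5 h6
      exact c4 hdeg a b c d h1 h2 h3 h4 h5 h6
  · refine three (Sh := cs H 4 ∪ cs H 5 ∪ cs H 6) ht hbl hdeg ?_ ?_ ?_ ?_
    · have e1 := Finset.card_union_le (cs H 4 ∪ cs H 5) (cs H 6)
      have e2 := Finset.card_union_le (cs H 4) (cs H 5)
      have e3 := cs_card hdeg 4
      have e4 := cs_card hdeg 5
      have e5 := cs_card hdeg 6
      omega
    · intro a b c d h1 h2 h3 h4 h5 h6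
      rw [Finset.mem_union, Finset.mem_union]
      exact Or.inl (Or.inl (c4 hdeg a b c d h1 h2 h3 h4 h5 h6))
    · intro a b c d e h1 h2 h3 h4 h5 h6
      rw [Finset.mem_union, Finset.mem_union]
      exact Or.inl (Or.inr (c5 hdeg a b c d e h1 h2 h3 h4 h5 h6))
    · intro a b c d e g h1 h2 h3 h4 h5 h6 h7
      rw [Finset.mem_union]
      exact Or.inr (c6 hdeg a b c d e g h1 h2 h3 h4 h5 h6 h7)

theorem colorable {V : Type*} [Fintype V] [DecidableEq V] (G : SimpleGraph V)
    [DecidableRel G.Adj] (f : V → ℕ) (hdeg : ∀ v : V, G.degree v ≤ 2)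
    (hf : ∀ v : V, (Finset.univ.filter (fun w : V => f w = f v)).card = 4)
    (h : cycleCount G 3 ≤ 7 ∨ (cycleCount G 3 ≤ 11 ∧ cycleCount G 4 ≤ 3) ∨
      cycleCount G 4 + cycleCount G 5 + cycleCount G 6 ≤ 3) :
    (G ⊔ SimpleGraph.fromRel (fun v w : V => f v = f w)).Colorable 4 := by
  classical
  have hd := Run7.h493.Walks.deg2 G (SimpleGraph.maxDegree_le_of_forall_degree_le G 2 hdeg)
  let bl : V → {n // n ∈ Finset.univ.image f} :=
    fun v => ⟨f v, Finset.mem_image_of_mem f (Finset.mem_univ v)⟩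
  obtain ⟨col, h1, h2⟩ := goal G bl (by
    rintro ⟨n, hn⟩
    obtain ⟨v, -, rfl⟩ := Finset.mem_image.1 hn
    rw [← hf v]
    congr 1
    ext w
    simp [bl]) hd h
  refine ⟨SimpleGraph.Coloring.mk col ?_⟩
  intro v w hvw
  rw [SimpleGraph.sup_adj, SimpleGraph.fromRel_adj] at hvw
  rcases hvw with hvw | ⟨hne, hvw⟩
  · exact h1 v w hvw
  · intro hc
    apply hne
    apply h2 v w _ hc
    apply Subtype.ext
    rcases hvw with h | h
    · exact h
    · exact h.symm

end H809R4
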