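import Mathlib
import Pool.Agent.H809R4.Fin

set_option autoImplicit false
set_option linter.unusedSectionVars false
set_option linter.unusedVariables false

/-! Colourings with rainbow blocks and few monochromatic edges. -/

namespace H809R4.Approx

open Finset Run7.h493.Reg Run7.h493.Init Run7.h493.Stage Run7.h493.Main H809R4.Tree H809R4.Short
  H809R4.Col H809R4.Count

variable {V B : Type*} [Fintype V] [DecidableEq V] [Fintype B] [DecidableEq B]
variable {H : SimpleGraph V} {bl : V → B} {t : B → V}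

theorem approx (ht : MaxIT H bl t)
    (hbl : ∀ b, (Finset.univ.filter (fun v => bl v = b)).card = 4)
    (hdeg : ∀ u a b c, H.Adj u a → H.Adj u b → H.Adj u c → a = b ∨ a = c ∨ b = c)
    (S : Finset H.ConnectedComponent) (hS : ∀ C, C ∈ S ↔ Un H t C) :
    ∃ (a c : H.ConnectedComponent → V) (f : V → Fin 4) (S' : Finset H.ConnectedComponent),
      (∀ u v, bl u = bl v → f u = f v → u = v) ∧ 3 * S'.card ≤ 2 * S.card ∧
      ∀ u v, H.Adj u v → f u = f v → ∃ C ∈ S', (u = a C ∧ v = c C) ∨ (u = c C ∧ v = a C) := by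
  classical
  obtain ⟨a, c, f, hac, h3, hst⟩ := start ht hbl hdeg
  obtain ⟨κ, hκ3, hκ⟩ : ∃ κ : Fin 4, κ ≠ 3 ∧
      S.card ≤ 3 * (S.filter (fun C => f (a C) = κ)).card := by
    by_contra hcon
    push Not at hcon
    have e0 := hcon 0 (by decide)
    have e1 := hcon 1 (by decide)
    have e2 := hcon 2 (by decide)
    have h1 : S ⊆ (S.filter (fun C => f (a C) = 0) ∪ S.filter (fun C => f (a C) = 1)) ∪
        S.filter (fun C => f (a C) = 2) := by
      intro C hC
      have hU := (hS C).1 hC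
      have h4 : f (a C) ≠ 3 := un0 h3 C hU _ (hac C hU.1).1
      have h5 : ∀ x : Fin 4, x ≠ 3 → x = 0 ∨ x = 1 ∨ x = 2 := by decide
      simp only [Finset.mem_union, Finset.mem_filter]
      rcases h5 _ h4 with h | h | h
      · exact Or.inl (Or.inl ⟨hC, h⟩)
      · exact Or.inl (Or.inr ⟨hC, h⟩)
      · exact Or.inr ⟨hC, h⟩
    have h2 := Finset.card_le_card h1
    have h4 := Finset.card_union_le
      (S.filter (fun C => f (a C) = 0) ∪ S.filter (fun C => f (a C) = 1))
      (S.filter (fun C => f (a C) = 2))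
    have h5 := Finset.card_union_le (S.filter (fun C => f (a C) = 0))
      (S.filter (fun C => f (a C) = 1))
    omega
  set σ : Equiv.Perm (Fin 4) := Equiv.swap κ 0 with hσ
  have hσ3 : σ 3 = 3 := Equiv.swap_apply_of_ne_of_ne (Ne.symm hκ3) (by decide)
  have hσ0 : σ κ = 0 := Equiv.swap_apply_left _ _
  have hst' := st_perm σ hσ3 (fun x _ _ => Nat.zero_le _) hac hst
  have h3' : ∀ v, σ (f v) = 3 ↔ v = t (bl v) := fun v => (perm_three hσ3 _).trans (h3 v)
  have k0 : (0 : Fin 4) ≠ 3 := by decide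
  have hst1 := stage (k := 0) (kk := 0) rfl k0 hst' hac
    (fun u s s' _ h1 h2 h4 h5 h6 => F0 (f := fun v => σ (f v)) h3' ht u s s' h1 h2 h4 h5 h6)
  refine ⟨a, c, _, S.filter (fun C => f (a C) ≠ κ), hst1.inj, ?_, ?_⟩
  · have h1 := Finset.card_filter_add_card_filter_not (s := S) (fun C => f (a C) = κ)
    have h2 : (S.filter (fun C => f (a C) ≠ κ)).card =
        (S.filter (fun C => ¬ f (a C) = κ)).card := rfl
    omega
  · intro u v huv h
    obtain ⟨C, hC, hq, hle, h4⟩ := hst1.conf u v huv h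
    refine ⟨C, ?_, h4⟩
    have hu3 : nf H bl t a c (fun v => σ (f v)) 0 u ≠ 3 := by
      apply hq
      rcases h4 with ⟨h4, -⟩ | ⟨h4, -⟩
      · rw [h4]; exact (hac C hC.1).1
      · rw [h4, ← cc_adj (hac C hC.1).2]; exact (hac C hC.1).1
    have hu0 : nf H bl t a c (fun v => σ (f v)) 0 u ≠ 0 := by
      intro h
      rw [h] at hle
      exact absurd hle (by decide)
    have e1 := nf_val rfl hu0 hu3
    have e2 := nf_val (v := v) h.symm hu0 hu3
    rw [Finset.mem_filter]
    refine ⟨(hS C).2 hC, fun hk => ?_⟩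
    rcases h4 with ⟨h4, -⟩ | ⟨-, h4⟩
    · apply hu0
      rw [← e1]
      show σ (f u) = 0
      rw [h4, hk]
      exact hσ0
    · apply hu0
      rw [← e2]
      show σ (f v) = 0
      rw [h4, hk]
      exact hσ0

theorem goalA (H : SimpleGraph V) (bl : V → B)
    (hbl : ∀ b, (Finset.univ.filter (fun v => bl v = b)).card = 4)
    (hdeg : ∀ u a b c, H.Adj u a → H.Adj u b → H.Adj u c → a = b ∨ a = c ∨ b = c) :
    ∃ f : V → Fin 4, (∀ u v, bl u = bl v → f u = f v → u = v) ∧
      6 * Set.ncard {e ∈ H.edgeSet | ∀ u ∈ e, ∀ v ∈ e, f u = f v} ≤ cycleCount H 3 := by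
  classical
  obtain ⟨t, ht⟩ := exists_max H bl hbl hdeg
  set S : Finset H.ConnectedComponent := Finset.univ.filter (fun C => Un H t C) with hS
  have hfour : 4 * S.card ≤ cycleCount H 3 :=
    (four_le ht hbl S (cs H 3) (fun C hC => by simpa [hS] using hC)
      (fun C hC h => mem_cs.2 ⟨h, hC⟩)).trans (cs_card hdeg 3)
  obtain ⟨a, c, f, S', h1, h2, h3⟩ := approx ht hbl hdeg S (fun C => by simp [hS])
  refine ⟨f, h1, ?_⟩
  have h4 : {e ∈ H.edgeSet | ∀ u ∈ e, ∀ v ∈ e, f u = f v} ⊆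
      ((S'.image (fun C => s(a C, c C)) : Finset (Sym2 V)) : Set (Sym2 V)) := by
    rintro e ⟨he, hm⟩
    induction e with
    | _ u v =>
      have huv : H.Adj u v := he
      have hc := hm u (Sym2.mem_mk_left u v) v (Sym2.mem_mk_right u v)
      obtain ⟨C, hC, h5⟩ := h3 u v huv hc
      rw [Finset.mem_coe, Finset.mem_image]
      refine ⟨C, hC, ?_⟩
      rcases h5 with ⟨h5, h6⟩ | ⟨h5, h6⟩
      · rw [h5, h6]
      · rw [h5, h6]
        exact Sym2.eq_swap
  have h5 := Set.ncard_le_ncard h4 (Finset.finite_toSet _)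
  rw [Set.ncard_coe_finset] at h5
  have h6 : (S'.image (fun C => s(a C, c C))).card ≤ S'.card := Finset.card_image_le
  omega

theorem almost {V : Type*} [Fintype V] [DecidableEq V] (G : SimpleGraph V)
    [DecidableRel G.Adj] (f : V → ℕ) (hdeg : ∀ v : V, G.degree v ≤ 2)
    (hf : ∀ v : V, (Finset.univ.filter (fun w : V => f w = f v)).card = 4) :
    ∃ c : V → Fin 4, (∀ u v, f u = f v → c u = c v → u = v) ∧
      6 * Set.ncard {e ∈ G.edgeSet | ∀ u ∈ e, ∀ v ∈ e, c u = c v} ≤
        (G.cliqueFinset 3).card := by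
  classical
  have hd := Run7.h493.Walks.deg2 G (SimpleGraph.maxDegree_le_of_forall_degree_le G 2 hdeg)
  let bl : V → {n // n ∈ Finset.univ.image f} :=
    fun v => ⟨f v, Finset.mem_image_of_mem f (Finset.mem_univ v)⟩
  obtain ⟨col, h1, h2⟩ := goalA G bl (by
    rintro ⟨n, hn⟩
    obtain ⟨v, -, rfl⟩ := Finset.mem_image.1 hn
    rw [← hf v]
    congr 1
    ext w
    simp [bl]) hd
  refine ⟨col, ?_, h2.trans (cycleCount_three G)⟩
  intro u v huv hc
  exact h1 u v (Subtype.ext huv) hc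

end H809R4.Approx
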