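import Mathlib
import Pool.Agent.H809R4.Fin

set_option autoImplicit false
set_option linter.unusedSectionVars false
set_option linter.unusedVariables false

/-! At most three cycles of length four and at most five cycles of length four, five or six. -/

namespace H809R4.Five

open Finset Run7.h493.Reg Run7.h493.Init Run7.h493.Stage Run7.h493.Main H809R4.Tree H809R4.Short
  H809R4.Col

variable {V B : Type*} [Fintype V] [DecidableEq V] [Fintype B] [DecidableEq B]
variable {H : SimpleGraph V} {bl : V → B} {t : B → V}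
variable {a c : H.ConnectedComponent → V} {f : V → Fin 4} {k : Fin 4}
variable {Sh Sh4 : Finset H.ConnectedComponent}

/-- a colour is good -/
def GoodC (H : SimpleGraph V) (bl : V → B) (t : B → V) (a c : H.ConnectedComponent → V)
    (Sh : Finset H.ConnectedComponent) (f : V → Fin 4) (κ : Fin 4) : Prop :=
  ∀ C, Un H t C → f (a C) = κ → f (c C) = κ →
      (∀ D ∈ Sh, ∀ v, H.connectedComponentMk v = D → Br H f κ v → ¬ Tr H bl f κ (a C) (bl v)) ∨
      (∀ D ∈ Sh, ∀ v, H.connectedComponentMk v = D → Br H f κ v → ¬ Tr H bl f κ (c C) (bl v))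

/-- a bad colour needs two branching components -/
theorem bad_two {kk : ℕ} (hst : St H bl t a c f kk)
    (hac : ∀ C, Cyc H C → H.connectedComponentMk (a C) = C ∧ H.Adj (a C) (c C))
    (hS : Single H bl t Sh f) {κ : Fin 4}
    (hF : ∀ u s s', f u = κ → H.Adj u s → H.Adj u s' → f s = 3 →
      f s' = 3 → Region H bl t (bl s) → s = s') (hbad : ¬ GoodC H bl t a c Sh f κ) :
    ∃ v1 v2, H.connectedComponentMk v1 ∈ Sh ∧ H.connectedComponentMk v2 ∈ Sh ∧
      H.connectedComponentMk v1 ≠ H.connectedComponentMk v2 ∧ Br H f κ v1 ∧ Br H f κ v2 ∧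
      RC H bl t (H.connectedComponentMk v1) ∧ RC H bl t (H.connectedComponentMk v2) := by
  unfold GoodC at hbad
  push Not at hbad
  obtain ⟨C, hC, h1, h2, ⟨D1, hD1, v1, e1, f1, g1⟩, ⟨D2, hD2, v2, e2, f2, g2⟩⟩ := hbad
  obtain ⟨g3, g4⟩ := hac C hC.1
  have hq := conf_quiet hst hac C hC (h1.trans h2.symm)
  have g5 : H.connectedComponentMk (c C) = C := by rw [← cc_adj g4]; exact g3
  have q1 : ∀ s, H.Adj (a C) s → f s ≠ 3 := fun s hs => hq s (by rw [← cc_adj hs]; exact g3)
  have q2 : ∀ s, H.Adj (c C) s → f s ≠ 3 := fun s hs => hq s (by rw [← cc_adj hs]; exact g5)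
  have q3 : Region H bl t (bl (a C)) := by
    apply region_start
    · rw [g3]; exact hC.1
    · rw [g3]; exact hC.2
  have q4 : Region H bl t (bl (c C)) := by
    apply region_start
    · rw [g5]; exact hC.1
    · rw [g5]; exact hC.2
  have hRC : ∀ r v : V, Region H bl t (bl r) → f v = 3 → Tr H bl f κ r (bl v) →
      RC H bl t (H.connectedComponentMk v) := by
    intro r v h1 h2 h3
    rcases hst.reg v h2 (tr_region hst h1 h3) with h | ⟨b, hb, h⟩
    · exact Or.inl h
    · exact Or.inr ⟨b, hb, h⟩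
  subst e1 e2
  refine ⟨v1, v2, hD1, hD2, ?_, f1, f2, hRC _ _ q3 f1.1 g1, hRC _ _ q4 f2.1 g2⟩
  intro h
  have := hS _ hD1 (hRC _ _ q3 f1.1 g1) v1 v2 rfl h.symm f1.1 f2.1
  subst this
  exact g4.ne (tr_unique hst hF h1 h2 q1 q2 q3 g1 g2)

theorem cross (hdeg : ∀ u a b c, H.Adj u a → H.Adj u b → H.Adj u c → a = b ∨ a = c ∨ b = c)
    (hS : Single H bl t Sh f) {κ κ' : Fin 4} (hκ : κ ≠ κ') {v w : V}
    (hv : H.connectedComponentMk v ∈ Sh) (h1 : Br H f κ v) (h2 : Br H f κ' w)
    (h3 : RC H bl t (H.connectedComponentMk v)) :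
    H.connectedComponentMk v ≠ H.connectedComponentMk w := by
  intro h
  have := hS _ hv h3 v w rfl h.symm h1.1 h2.1
  subst this
  obtain ⟨-, u, w, huw, h1, h2', h3', h4⟩ := h1
  obtain ⟨-, u', w', -, g1, -, g3, -⟩ := h2
  rcases hdeg v u w u' h1 h2' g1 with h | h | h
  · exact huw h
  · rw [← h, h3'] at g3; exact hκ g3
  · rw [← h, h4] at g3; exact hκ g3

/-- one of three colours is good -/
theorem good_three {kk : ℕ} (hst : St H bl t a c f kk)
    (hdeg : ∀ u a b c, H.Adj u a → H.Adj u b → H.Adj u c → a = b ∨ a = c ∨ b = c)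
    (hac : ∀ C, Cyc H C → H.connectedComponentMk (a C) = C ∧ H.Adj (a C) (c C))
    (hS : Single H bl t Sh f) (hSh : Sh.card ≤ 5)
    (hF : ∀ κ : Fin 4, ∀ u s s', f u = κ → H.Adj u s → H.Adj u s' → f s = 3 →
      f s' = 3 → Region H bl t (bl s) → s = s') :
    ∃ κ : Fin 4, (κ = 0 ∨ κ = 1 ∨ κ = 2) ∧ GoodC H bl t a c Sh f κ := by
  classical
  by_contra hcon
  push Not at hcon
  obtain ⟨v1, v2, a1, a2, a3, a4, a5, a6, a7⟩ :=
    bad_two hst hac hS (hF 0) (hcon 0 (Or.inl rfl))
  obtain ⟨w1, w2, b1, b2, b3, b4, b5, b6, b7⟩ :=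
    bad_two hst hac hS (hF 1) (hcon 1 (Or.inr (Or.inl rfl)))
  obtain ⟨x1, x2, c1, c2, c3, c4, c5, c6, c7⟩ :=
    bad_two hst hac hS (hF 2) (hcon 2 (Or.inr (Or.inr rfl)))
  have h01 : (0 : Fin 4) ≠ 1 := by decide
  have h02 : (0 : Fin 4) ≠ 2 := by decide
  have h12 : (1 : Fin 4) ≠ 2 := by decide
  have hn : [H.connectedComponentMk v1, H.connectedComponentMk v2, H.connectedComponentMk w1,
      H.connectedComponentMk w2, H.connectedComponentMk x1, H.connectedComponentMk x2].Nodup := by
    simp only [List.nodup_cons, List.mem_cons, List.not_mem_nil, or_false, not_or,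
      List.nodup_nil, and_true, not_false_eq_true]
    exact ⟨⟨a3, cross hdeg hS h01 a1 a4 b4 a6, cross hdeg hS h01 a1 a4 b5 a6,
      cross hdeg hS h02 a1 a4 c4 a6, cross hdeg hS h02 a1 a4 c5 a6⟩,
      ⟨cross hdeg hS h01 a2 a5 b4 a7, cross hdeg hS h01 a2 a5 b5 a7,
      cross hdeg hS h02 a2 a5 c4 a7, cross hdeg hS h02 a2 a5 c5 a7⟩,
      ⟨b3, cross hdeg hS h12 b1 b4 c4 b6, cross hdeg hS h12 b1 b4 c5 b6⟩,
      ⟨cross hdeg hS h12 b2 b5 c4 b7, cross hdeg hS h12 b2 b5 c5 b7⟩, c3⟩
  have hsub : [H.connectedComponentMk v1, H.connectedComponentMk v2, H.connectedComponentMk w1,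
      H.connectedComponentMk w2, H.connectedComponentMk x1,
      H.connectedComponentMk x2].toFinset ⊆ Sh := by
    intro x hx
    simp only [List.mem_toFinset, List.mem_cons, List.not_mem_nil, or_false] at hx
    rcases hx with rfl | rfl | rfl | rfl | rfl | rfl <;> assumption
  have := Finset.card_le_card hsub
  rw [List.toFinset_card_of_nodup hn] at this
  simp only [List.length_cons, List.length_nil] at this
  omega

/-- the state before the last changes -/
theorem state2' (hdeg : ∀ u a b c, H.Adj u a → H.Adj u b → H.Adj u c → a = b ∨ a = c ∨ b = c)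
    (hac : ∀ C, Cyc H C → H.connectedComponentMk (a C) = C ∧ H.Adj (a C) (c C))
    (hst1 : St H bl t a c f 1) (hS1 : S1 H bl t Sh f) (h44 : Q4 H Sh4) (hss : Sh4 ⊆ Sh)
    (h5 : ∀ a b c d e, H.Adj a b → H.Adj b c → H.Adj c d → H.Adj d e → H.Adj e a →
      [a, b, c, d, e].Nodup → H.connectedComponentMk a ∈ Sh)
    (h6 : ∀ a b c d e g, H.Adj a b → H.Adj b c → H.Adj c d → H.Adj d e → H.Adj e g →
      H.Adj g a → [a, b, c, d, e, g].Nodup → H.connectedComponentMk a ∈ Sh)
    (hnb : ∀ v, H.connectedComponentMk v ∈ Sh4 → Br H f 1 v → ¬ Fl H bl t a c f 1 (bl v)) :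
    St H bl t a c (nf H bl t a c f 1) 2 ∧ ∀ u s s', nf H bl t a c f 1 u = 2 → H.Adj u s →
      H.Adj u s' → nf H bl t a c f 1 s = 3 → nf H bl t a c f 1 s' = 3 →
      Region H bl t (bl s) → s = s' := by
  have k1 : (1 : Fin 4) ≠ 3 := by decide
  have h4 : Q4 H Sh := fun a b c d e1 e2 e3 e4 e5 e6 => hss (h44 a b c d e1 e2 e3 e4 e5 e6)
  have hS4 : Single H bl t Sh4 f := fun D hD => hS1.single D (hss hD)
  have hst2 := stage (k := 1) (kk := 1) rfl k1 hst1 hac (F1 hst1 hS1 h4 (by decide))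
  have hsing := single_next k1 hst1 hac hS4 hnb
  have hcc : ∀ {u v : V}, H.Adj u v → H.connectedComponentMk u = H.connectedComponentMk v :=
    fun h => cc_adj h
  refine ⟨hst2, ?_⟩
  set f2 := nf H bl t a c f 1 with hf2def
  have hit2 : ∀ b, Region H bl t b → (f2 (t b) = 3 ∧
      ∀ s, H.connectedComponentMk s = H.connectedComponentMk (t b) → f2 s = 3 → s = t b) ∨
      ((f2 (t b) = 0 ∨ f2 (t b) = 1) ∧
      ∀ s, H.connectedComponentMk s = H.connectedComponentMk (t b) → f2 s = 3 →
        H.Adj (t b) s ∨ (f2 (t b) = 0 ∧ ∃ w, H.Adj (t b) w ∧ H.Adj w s ∧ s ≠ t b ∧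
          f2 w = 1)) := by
    intro b hb
    rcases hS1.hit b hb with ⟨h1, h2⟩ | ⟨h1, h2⟩
    · by_cases hfl : Fl H bl t a c f 1 (bl (t b))
      · right
        refine ⟨Or.inr ((nf_k k1).2 (Or.inr ⟨h1, hfl⟩)), fun s hs h => ?_⟩
        left
        rcases newthree k1 hst1 hac hs h with ⟨h3, h4⟩ | ⟨h3, w, h4, h5, h6, -, h7⟩
        · rw [h2 s hs h3] at h4
          exact absurd hfl h4
        · rw [← h2 w h7 h5]
          exact h6
      · left
        refine ⟨(nf_three k1).2 (Or.inl ⟨h1, hfl⟩), fun s hs h => ?_⟩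
        rcases newthree k1 hst1 hac hs h with ⟨h3, h4⟩ | ⟨h3, w, h4, h5, h6, -, h7⟩
        · exact h2 s hs h3
        · rw [h2 w h7 h5] at h4
          exact absurd h4 hfl
    · right
      have h0 : f2 (t b) = 0 := by
        rw [hf2def, nf_other (by rw [h1]; decide) (by rw [h1]; decide)]
        exact h1
      refine ⟨Or.inl h0, fun s hs h => ?_⟩
      rcases newthree k1 hst1 hac hs h with ⟨h3, h4⟩ | ⟨h3, w, h4, h5, h6, h8, h7⟩
      · left
        exact h2 s hs h3
      · right
        refine ⟨h0, w, h2 w h7 h5, h6, ?_, h8⟩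
        intro hh
        rw [hh, h1] at h3
        exact absurd h3 (by decide)
  have hun2 : ∀ C, Un H t C → ∀ s s', H.connectedComponentMk s = C →
      H.connectedComponentMk s' = C → f2 s = 3 → f2 s' = 3 → s = s' := by
    intro C hC
    obtain ⟨e1, e2⟩ := hac C hC.1
    rcases hS1.un C hC with h0 | ⟨x, y, hx, hxy, h0, h1, h1'⟩
    · have key : ∀ s, H.connectedComponentMk s = C → f2 s = 3 → s = a C := by
        intro s hs h
        rcases (nf_three k1).1 h with ⟨h3, -⟩ | ⟨h3, h4⟩
        · exact absurd h3 (h0 s hs)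
        · exact (quiet k1 hst1.inj hac h0 hs h3 h4).2.1
      intro s s' hs hs' h h'
      rw [key s hs h, key s' hs' h']
    · have hnc : ∀ s, H.connectedComponentMk s = C → f s = 1 → Fl H bl t a c f 1 (bl s) →
          ∃ w, Fl H bl t a c f 1 (bl w) ∧ f w = 3 ∧ H.Adj w s := by
        intro s hs g1 g2
        rcases fl_cases hst1.inj g1 g2 with ⟨C', hC', g3, g4, g5⟩ | h
        · exfalso
          have : C' = C := by
            rw [← hs, g3]; exact (hac C' hC'.1).1.symm
          subst this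
          exact conf_quiet hst1 hac C' hC' (g4.trans g5.symm) x hx h1'
        · exact h
      by_cases hfl : Fl H bl t a c f 1 (bl x)
      · have key : ∀ s, H.connectedComponentMk s = C → f2 s = 3 → H.Adj x s ∧ s ≠ y := by
          intro s hs h
          rcases (nf_three k1).1 h with ⟨h3, h4⟩ | ⟨h3, h4⟩
          · rw [h0 s hs h3] at h4
            exact absurd hfl h4
          · obtain ⟨w, g1, g2, g3⟩ := hnc s hs h3 h4
            have := h0 w ((hcc g3).trans hs) g2
            rw [this] at g3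
            refine ⟨g3, fun hh => ?_⟩
            rw [hh, h1] at h3
            exact absurd h3 (by decide)
        intro s s' hs hs' h h'
        obtain ⟨g1, g2⟩ := key s hs h
        obtain ⟨g3, g4⟩ := key s' hs' h'
        rcases hdeg _ _ _ _ g1 g3 hxy with g | g | g
        · exact g
        · exact absurd g g2
        · exact absurd g g4
      · have key : ∀ s, H.connectedComponentMk s = C → f2 s = 3 → s = x := by
          intro s hs h
          rcases (nf_three k1).1 h with ⟨h3, h4⟩ | ⟨h3, h4⟩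
          · exact h0 s hs h3
          · obtain ⟨w, g1, g2, g3⟩ := hnc s hs h3 h4
            have := h0 w ((hcc g3).trans hs) g2
            rw [this] at g1
            exact absurd g1 hfl
        intro s s' hs hs' h h'
        rw [key s hs h, key s' hs' h']
  intro u s s' hu h1 h2 h3 h4' h5'
  rcases hst2.reg s h3 h5' with hC | ⟨b, hb, hs⟩
  · exact hun2 _ hC s s' rfl ((hcc h2).symm.trans (hcc h1)) h3 h4'
  · have hs' : H.connectedComponentMk s' = H.connectedComponentMk (t b) :=
      ((hcc h2).symm.trans (hcc h1)).trans hs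
    by_cases hSh : H.connectedComponentMk s ∈ Sh
    · -- short components: met once before the changes of colour 1
      have hone : ∀ w w', H.connectedComponentMk w = H.connectedComponentMk (t b) →
          H.connectedComponentMk w' = H.connectedComponentMk (t b) → f w = 3 → f w' = 3 →
          w = w' := fun w w' e1 e2 e3 e4 =>
        hS1.single _ hSh (Or.inr ⟨b, hb, hs⟩) w w' (e1.trans hs.symm) (e2.trans hs.symm) e3 e4
      rcases newthree k1 hst1 hac hs h3 with ⟨g1, g2⟩ | ⟨g1, w, g2, g3, g4, g5, g6⟩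
      · rcases newthree k1 hst1 hac hs' h4' with ⟨g1', g2'⟩ | ⟨g1', w', g2', g3', g4', g5', g6'⟩
        · exact hone s s' hs hs' g1 g1'
        · exfalso
          rw [hone w' s g6' hs g3' g1] at g2'
          exact g2 g2'
      · rcases newthree k1 hst1 hac hs' h4' with ⟨g1', g2'⟩ | ⟨g1', w', g2', g3', g4', g5', g6'⟩
        · exfalso
          rw [hone w s' g6 hs' g3 g1'] at g2
          exact g2' g2
        · have hww := hone w w' g6 g6' g3 g3'
          subst hww
          by_contra hne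
          have hwu : w ≠ u := by
            intro h
            have h9 : f2 w = 1 := g5
            rw [h, hu] at h9
            exact absurd h9 (by decide)
          have h7 := h44 w s u s' g4 h1.symm h2 g4'.symm hwu hne
          apply hne
          have h8 : H.connectedComponentMk s ∈ Sh4 := by rw [← hcc g4]; exact h7
          exact hsing _ h8 (Or.inr ⟨b, hb, hs⟩) s s' rfl (hs'.trans hs.symm) h3 h4'
    have hSh' : H.connectedComponentMk (t b) ∈ Sh → False := by
      intro h
      exact hSh (by rw [hs]; exact h)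
    rcases hit2 b hb with ⟨h6, h7⟩ | ⟨h6', h7⟩
    · rw [h7 s hs h3, h7 s' hs' h4']
    · by_contra hne
      have hcol : ∀ x y : V, ∀ p q : Fin 4, f2 x = p → f2 y = q → p ≠ q → x ≠ y := by
        intro x y p q hx hy hpq hxy
        rw [hxy, hy] at hx
        exact hpq hx.symm
      have htu : t b ≠ u := by
        rcases h6' with h6 | h6
        · exact hcol _ _ _ _ h6 hu (by decide)
        · exact hcol _ _ _ _ h6 hu (by decide)
      have hts : t b ≠ s := by
        rcases h6' with h6 | h6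
        · exact hcol _ _ _ _ h6 h3 (by decide)
        · exact hcol _ _ _ _ h6 h3 (by decide)
      have hts' : t b ≠ s' := by
        rcases h6' with h6 | h6
        · exact hcol _ _ _ _ h6 h4' (by decide)
        · exact hcol _ _ _ _ h6 h4' (by decide)
      have hus : u ≠ s := hcol _ _ _ _ hu h3 (by decide)
      have hus' : u ≠ s' := hcol _ _ _ _ hu h4' (by decide)
      rcases h7 s hs h3 with g | ⟨g0, w, g1, g2, g3, g4⟩
      · rcases h7 s' hs' h4' with g' | ⟨g0', w', g1', g2', g3', g4'⟩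
        · exact hSh' (h4 (t b) s u s' g h1.symm h2 g'.symm htu hne)
        · have w1 : w' ≠ u := hcol _ _ _ _ g4' hu (by decide)
          have w2 : w' ≠ s := hcol _ _ _ _ g4' h3 (by decide)
          have w3 : w' ≠ s' := hcol _ _ _ _ g4' h4' (by decide)
          have w4 : w' ≠ t b := g1'.ne'
          refine hSh' (h5 (t b) s u s' w' g h1.symm h2 g2'.symm g1'.symm ?_)
          simp only [List.nodup_cons, List.mem_cons, List.not_mem_nil, or_false, not_or,
            List.nodup_nil, and_true, not_false_eq_true]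
          exact ⟨⟨hts, htu, hts', w4.symm⟩, ⟨hus.symm, hne, w2.symm⟩, ⟨hus', w1.symm⟩,
            w3.symm⟩
      · have w1 : w ≠ u := hcol _ _ _ _ g4 hu (by decide)
        have w2 : w ≠ s := hcol _ _ _ _ g4 h3 (by decide)
        have w3 : w ≠ s' := hcol _ _ _ _ g4 h4' (by decide)
        have w4 : w ≠ t b := g1.ne'
        rcases h7 s' hs' h4' with g' | ⟨g0', w', g1', g2', g3', g4'⟩
        · refine hSh' (h5 (t b) s' u s w g' h2.symm h1 g2.symm g1.symm ?_)
          simp only [List.nodup_cons, List.mem_cons, List.not_mem_nil, or_false, not_or,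
            List.nodup_nil, and_true, not_false_eq_true]
          exact ⟨⟨hts', htu, hts, w4.symm⟩, ⟨hus'.symm, Ne.symm hne, w3.symm⟩,
            ⟨hus, w1.symm⟩, w2.symm⟩
        · have v1 : w' ≠ u := hcol _ _ _ _ g4' hu (by decide)
          have v2 : w' ≠ s := hcol _ _ _ _ g4' h3 (by decide)
          have v3 : w' ≠ s' := hcol _ _ _ _ g4' h4' (by decide)
          have v4 : w' ≠ t b := g1'.ne'
          have hww : w ≠ w' := by
            intro hh
            subst hh
            rcases hdeg w (t b) s s' g1.symm g2 g2' with h | h | h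
            · exact hts h
            · exact hts' h
            · exact hne h
          refine hSh' (h6 (t b) w s u s' w' g1 g2 h1.symm h2 g2'.symm g1'.symm ?_)
          simp only [List.nodup_cons, List.mem_cons, List.not_mem_nil, or_false, not_or,
            List.nodup_nil, and_true, not_false_eq_true]
          exact ⟨⟨w4.symm, hts, htu, hts', v4.symm⟩, ⟨w2, w1, w3, hww⟩,
            ⟨hus.symm, hne, v2.symm⟩, ⟨hus', v1.symm⟩, v3.symm⟩

/-- at most three cycles of length four and at most five of length four, five or six -/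
theorem five (ht : MaxIT H bl t)
    (hbl : ∀ b, (Finset.univ.filter (fun v => bl v = b)).card = 4)
    (hdeg : ∀ u a b c, H.Adj u a → H.Adj u b → H.Adj u c → a = b ∨ a = c ∨ b = c)
    (hSh4 : Sh4.card ≤ 3) (hSh : Sh.card ≤ 5) (hss : Sh4 ⊆ Sh) (h4 : Q4 H Sh4)
    (h5 : ∀ a b c d e, H.Adj a b → H.Adj b c → H.Adj c d → H.Adj d e → H.Adj e a →
      [a, b, c, d, e].Nodup → H.connectedComponentMk a ∈ Sh)
    (h6 : ∀ a b c d e g, H.Adj a b → H.Adj b c → H.Adj c d → H.Adj d e → H.Adj e g →
      H.Adj g a → [a, b, c, d, e, g].Nodup → H.connectedComponentMk a ∈ Sh) : Goal H bl := by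
  obtain ⟨a, c, f, hac, h3, hst⟩ := start ht hbl hdeg
  -- the first colour
  obtain ⟨κ, hκ, hg⟩ := good_three hst hdeg hac (single0 h3 ht) hSh
    (fun κ u s s' _ h1 h2 h4 h5 h6 => F0 h3 ht u s s' h1 h2 h4 h5 h6)
  obtain ⟨a', c', hor, hnb⟩ := orient hst hac hg
  have hac' := hac_orient hor hac
  obtain ⟨g, hst1, hS1⟩ : ∃ g : V → Fin 4, St H bl t a' c' g 1 ∧ S1 H bl t Sh g := by
    set σ : Equiv.Perm (Fin 4) := Equiv.swap κ 0 with hσ
    have hσ3 : σ 3 = 3 := by
      rcases hκ with rfl | rfl | rfl <;> rw [hσ] <;> decide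
    have hσ0 : σ κ = 0 := Equiv.swap_apply_left _ _
    have hst' := st_perm σ hσ3 (fun x _ _ => Nat.zero_le _) hac' (st_orient hor hst)
    have h3' : ∀ v, σ (f v) = 3 ↔ v = t (bl v) := fun v => (perm_three hσ3 _).trans (h3 v)
    obtain ⟨hst1, hS1⟩ := state1 (Sh := Sh) ht h3' hac' hst' (by
      intro v hv hb hfl
      rw [← hσ0] at hb hfl
      exact hnb v hv (br_perm σ hσ3 hb) (fl_perm σ hσ3 hfl))
    exact ⟨_, hst1, hS1⟩
  have h4' : Q4 H Sh := fun a b c d e1 e2 e3 e4 e5 e6 => hss (h4 a b c d e1 e2 e3 e4 e5 e6)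
  -- the second colour
  obtain ⟨κ', hκ', hg'⟩ := good_colour (Sh := Sh4) hst1 hdeg hac'
    (fun D hD => hS1.single D (hss hD)) hSh4
    (k := 1) (k' := 2) (by decide) (by
      rintro κ (rfl | rfl)
      · exact F1 hst1 hS1 h4' (by decide)
      · exact F1 hst1 hS1 h4' (by decide))
  obtain ⟨a'', c'', hor', hnb'⟩ := orient hst1 hac' hg'
  set σ : Equiv.Perm (Fin 4) := Equiv.swap κ' 1 with hσ
  have hσ3 : σ 3 = 3 := by
    rcases hκ' with rfl | rfl <;> rw [hσ] <;> decide
  have hσ0 : σ 0 = 0 := by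
    rcases hκ' with rfl | rfl <;> rw [hσ] <;> decide
  have hσ1 : σ κ' = 1 := Equiv.swap_apply_left _ _
  have hac'' := hac_orient hor' hac'
  have hst1' := st_perm σ hσ3 (by
    rcases hκ' with rfl | rfl <;> rw [hσ] <;> decide) hac'' (st_orient hor' hst1)
  obtain ⟨hst2, hF2⟩ := state2' (Sh := Sh) (Sh4 := Sh4) hdeg hac'' hst1'
    (hS1.perm σ hσ0 hσ3) h4 hss h5 h6 (by
    intro v hv hb hfl
    rw [← hσ1] at hb hfl
    exact hnb' v hv (br_perm σ hσ3 hb) (fl_perm σ hσ3 hfl))
  have k2 : (2 : Fin 4) ≠ 3 := by decide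
  have hst3 := stage (k := 2) (kk := 2) rfl k2 hst2 hac'' hF2
  refine ⟨_, ?_, hst3.inj⟩
  intro u v huv h
  obtain ⟨C, hC, hq, hle, h7⟩ := hst3.conf u v huv h
  have hu3 := hq u (by
    rcases h7 with ⟨h7, -⟩ | ⟨h7, -⟩
    · rw [h7]; exact (hac'' C hC.1).1
    · rw [h7, ← cc_adj (hac'' C hC.1).2]; exact (hac'' C hC.1).1)
  apply hu3
  apply Fin.ext
  have := (nf H bl t a'' c'' (nf H bl t a'' c'' (fun v => σ (g v)) 1) 2 u).2
  show ((nf H bl t a'' c'' (nf H bl t a'' c'' (fun v => σ (g v)) 1) 2 u : Fin 4) : ℕ) = 3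
  omega

theorem goal5 (H : SimpleGraph V) (bl : V → B)
    (hbl : ∀ b, (Finset.univ.filter (fun v => bl v = b)).card = 4)
    (hdeg : ∀ u a b c, H.Adj u a → H.Adj u b → H.Adj u c → a = b ∨ a = c ∨ b = c)
    (h1 : cycleCount H 4 ≤ 3)
    (h2 : Set.ncard {C : H.ConnectedComponent | 4 ≤ C.supp.ncard ∧ C.supp.ncard ≤ 6 ∧
      ∀ v ∈ C.supp, (H.neighborSet v).ncard = 2} ≤ 5) : Goal H bl := by
  classical
  obtain ⟨t, ht⟩ := exists_max H bl hbl hdeg
  refine five (Sh4 := cs H 4) (Sh := cs H 4 ∪ cs H 5 ∪ cs H 6) ht hbl hdeg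
    ((cs_card hdeg 4).trans h1) ?_ ?_ ?_ ?_ ?_
  · refine le_trans ?_ h2
    rw [← Set.ncard_coe_finset]
    apply Set.ncard_le_ncard _ (Set.toFinite _)
    intro C hC
    have hC := Finset.mem_coe.1 hC
    rw [Finset.mem_union, Finset.mem_union, mem_cs, mem_cs, mem_cs] at hC
    have hc : Cyc H C := by
      rcases hC with (h | h) | h <;> exact h.2
    refine ⟨?_, ?_, cyc_deg hdeg hc⟩
    · rw [vs_supp]
      rcases hC with (h | h) | h <;> omega
    · rw [vs_supp]
      rcases hC with (h | h) | h <;> omega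
  · intro C hC
    rw [Finset.mem_union, Finset.mem_union]
    exact Or.inl (Or.inl hC)
  · intro a b c d h1 h2 h3 h4 h5 h6
    exact c4 hdeg a b c d h1 h2 h3 h4 h5 h6
  · intro a b c d e h1 h2 h3 h4 h5 h6
    rw [Finset.mem_union, Finset.mem_union]
    exact Or.inl (Or.inr (c5 hdeg a b c d e h1 h2 h3 h4 h5 h6))
  · intro a b c d e g h1 h2 h3 h4 h5 h6 h7
    rw [Finset.mem_union]
    exact Or.inr (c6 hdeg a b c d e g h1 h2 h3 h4 h5 h6 h7)

theorem colorable5 {V : Type*} [Fintype V] [DecidableEq V] (G : SimpleGraph V)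
    [DecidableRel G.Adj] (f : V → ℕ) (hdeg : ∀ v : V, G.degree v ≤ 2)
    (hf : ∀ v : V, (Finset.univ.filter (fun w : V => f w = f v)).card = 4)
    (h1 : cycleCount G 4 ≤ 3)
    (h2 : Set.ncard {C : G.ConnectedComponent | 4 ≤ C.supp.ncard ∧ C.supp.ncard ≤ 6 ∧
      ∀ v ∈ C.supp, (G.neighborSet v).ncard = 2} ≤ 5) :
    (G ⊔ SimpleGraph.fromRel (fun v w : V => f v = f w)).Colorable 4 := by
  classical
  have hd := Run7.h493.Walks.deg2 G (SimpleGraph.maxDegree_le_of_forall_degree_le G 2 hdeg)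
  let bl : V → {n // n ∈ Finset.univ.image f} :=
    fun v => ⟨f v, Finset.mem_image_of_mem f (Finset.mem_univ v)⟩
  obtain ⟨col, h1, h2⟩ := goal5 G bl (by
    rintro ⟨n, hn⟩
    obtain ⟨v, -, rfl⟩ := Finset.mem_image.1 hn
    rw [← hf v]
    congr 1
    ext w
    simp [bl]) hd h1 h2
  refine ⟨SimpleGraph.Coloring.mk col ?_⟩
  intro v w hvw
  rw [SimpleGraph.sup_adj, SimpleGraph.fromRel_adj] at hvw
  rcases hvw with hvw | ⟨hne, hvw⟩
  · exact h1 v w hvw
  · intro hc
    apply hne
    apply h2 v w _ hc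
    apply Subtype.ext
    rcases hvw with h | h
    · exact h
    · exact h.symm

end H809R4.Five
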